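import Pool.Agent.Helper34K9.Cor.Haar

set_option autoImplicit false

open Complex Set Function Metric MeasureTheory Matrix
open scoped Real Topology

namespace Pool.Agent.Helper34K9.Cor

variable {k : ℕ}

/-- the functional -/
noncomputable def Lf (r : ℝ) (i : ℕ) (F : (Fin k → Fin k → ℂ) → ℂ) : ℂ :=
  ∫ U : UG k, F (sc r U.1) * (starRingEnd ℂ U.1.det) ^ i ∂(mu k)

theorem mem_sc {r : ℝ} (hr : k * r ^ 2 < 1) (U : UG k) : sc r U.1 ∈ MB k := by
  show hs (sc r U.1) < 1
  rw [hs_sc, hs_unitary]
  linarith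

theorem mem_sc_Wm {r : ℝ} (hr : k * r ^ 2 < 1) {u : Fin k → ℂ} (hu : star u ⬝ᵥ u = 1) {lam : ℂ}
    (hl : ‖lam‖ ≤ 1) (U : UG k) : sc r (Wm u lam * U.1) ∈ MB k := by
  show hs (sc r (Wm u lam * U.1)) < 1
  rw [hs_sc, hs_Wm_mul hu]
  have h1 : ‖lam‖ ^ 2 ≤ 1 := pow_le_one₀ (norm_nonneg _) hl
  nlinarith [sq_nonneg r]

theorem continuous_sc (r : ℝ) : Continuous (sc r : Matrix (Fin k) (Fin k) ℂ → _) := by
  unfold sc
  refine continuous_pi fun i => continuous_pi fun j => ?_
  exact continuous_const.mul (continuous_id.matrix_elem i j)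

theorem continuous_val : Continuous fun U : UG k => U.1 := continuous_subtype_val

theorem continuous_comp_sc {r : ℝ} (hr : k * r ^ 2 < 1) {F : (Fin k → Fin k → ℂ) → ℂ}
    (hF : ContinuousOn F (MB k)) : Continuous fun U : UG k => F (sc r U.1) :=
  hF.comp_continuous ((continuous_sc r).comp continuous_val) fun U => mem_sc hr U

theorem continuous_wt (i : ℕ) : Continuous fun U : UG k => (starRingEnd ℂ U.1.det) ^ i := by
  have h1 : Continuous fun U : UG k => U.1.det := continuous_val.matrix_det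
  exact (Complex.continuous_conj.comp h1).pow i

theorem integrable_of_cont {f : UG k → ℂ} (hf : Continuous f) : Integrable f (mu k) :=
  hf.integrable_of_hasCompactSupport (HasCompactSupport.of_compactSpace f)

theorem Lf_add {r : ℝ} (i : ℕ) {F G : (Fin k → Fin k → ℂ) → ℂ}
    (hF : Continuous fun U : UG k => F (sc r U.1)) (hG : Continuous fun U : UG k => G (sc r U.1)) :
    Lf r i (fun Z => F Z + G Z) = Lf r i F + Lf r i G := by
  have e1 : Integrable (fun U : UG k => F (sc r U.1) * (starRingEnd ℂ U.1.det) ^ i) (mu k) :=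
    integrable_of_cont (hF.mul (continuous_wt i))
  have e2 : Integrable (fun U : UG k => G (sc r U.1) * (starRingEnd ℂ U.1.det) ^ i) (mu k) :=
    integrable_of_cont (hG.mul (continuous_wt i))
  unfold Lf
  rw [← integral_add e1 e2]
  congr 1
  ext U
  ring

theorem Lf_const_mul {r : ℝ} (i : ℕ) (c : ℂ) (F : (Fin k → Fin k → ℂ) → ℂ) :
    Lf r i (fun Z => c * F Z) = c * Lf r i F := by
  unfold Lf
  rw [← integral_const_mul]
  congr 1
  ext U
  ring

theorem Lf_sum {ι : Type*} {r : ℝ} (i : ℕ) (s : Finset ι) {F : ι → (Fin k → Fin k → ℂ) → ℂ}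
    (hF : ∀ j ∈ s, Continuous fun U : UG k => F j (sc r U.1)) :
    Lf r i (fun Z => ∑ j ∈ s, F j Z) = ∑ j ∈ s, Lf r i (F j) := by
  have e1 : ∀ j ∈ s, Integrable (fun U : UG k => F j (sc r U.1) * (starRingEnd ℂ U.1.det) ^ i)
      (mu k) := fun j hj => integrable_of_cont ((hF j hj).mul (continuous_wt i))
  unfold Lf
  rw [← integral_finsetSum s e1]
  congr 1
  ext U
  rw [Finset.sum_mul]

theorem Lf_bound {r : ℝ} (i : ℕ) {F : (Fin k → Fin k → ℂ) → ℂ} {M : ℝ}
    (hM : ∀ U : UG k, ‖F (sc r U.1)‖ ≤ M) : ‖Lf r i F‖ ≤ M := by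
  unfold Lf
  have h1 := norm_integral_le_of_norm_le_const (μ := mu k) (C := M)
    (f := fun U : UG k => F (sc r U.1) * (starRingEnd ℂ U.1.det) ^ i) (by
      refine Filter.Eventually.of_forall fun U => ?_
      rw [norm_mul, norm_pow, RCLike.norm_conj, norm_det, one_pow, mul_one]
      exact hM U)
  simpa using h1

theorem Lf_congr {r : ℝ} (i : ℕ) {F G : (Fin k → Fin k → ℂ) → ℂ}
    (h : ∀ U : UG k, F (sc r U.1) = G (sc r U.1)) : Lf r i F = Lf r i G := by
  unfold Lf
  congr 1
  ext U
  rw [h U]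

theorem det_sc (r : ℝ) (A : Matrix (Fin k) (Fin k) ℂ) :
    (Matrix.of (sc r A)).det = (r : ℂ) ^ k * A.det := by
  have : Matrix.of (sc r A) = (r : ℂ) • A := by
    ext i j
    simp [sc]
  rw [this, Matrix.det_smul, Fintype.card_fin]

/-- the functional on powers of the determinant -/
theorem Lf_det_self (r : ℝ) (i : ℕ) :
    Lf r i (fun Z : Fin k → Fin k → ℂ => (Matrix.of Z).det ^ i) = ((r : ℂ) ^ k) ^ i := by
  unfold Lf
  have : ∀ U : UG k, (Matrix.of (sc r U.1)).det ^ i * (starRingEnd ℂ U.1.det) ^ i =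
      ((r : ℂ) ^ k) ^ i := by
    intro U
    rw [det_sc, mul_pow, mul_assoc, ← mul_pow, Complex.mul_conj, Complex.normSq_eq_norm_sq, norm_det]
    simp
  simp only [this]
  simp

theorem exists_unit (hk : 0 < k) : ∃ u : Fin k → ℂ, star u ⬝ᵥ u = 1 := by
  refine ⟨Pi.single ⟨0, hk⟩ 1, ?_⟩
  simp

theorem Lf_det_ne (r : ℝ) (hk : 0 < k) {i l : ℕ} (h : l ≠ i) :
    Lf r i (fun Z : Fin k → Fin k → ℂ => (Matrix.of Z).det ^ l) = 0 := by
  obtain ⟨u, hu⟩ := exists_unit hk
  set m : ℝ := (l : ℝ) - i with hm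
  have hm0 : m ≠ 0 := by
    rw [hm]
    intro h1
    apply h
    have : (l : ℝ) = i := by linarith
    exact_mod_cast this
  set lam : ℂ := Complex.exp (((π / m : ℝ) : ℂ) * I) with hlam
  have hl : ‖lam‖ = 1 := Complex.norm_exp_ofReal_mul_I _
  let W : UG k := ⟨Wm u lam, Wm_mem hu hl⟩
  have h1 := integral_left (fun U : UG k =>
    (Matrix.of (sc r U.1)).det ^ l * (starRingEnd ℂ U.1.det) ^ i) W
  have h2 : ∀ U : UG k, (Matrix.of (sc r (W * U).1)).det ^ l *
      (starRingEnd ℂ (W * U).1.det) ^ i = (lam ^ l * (starRingEnd ℂ lam) ^ i) *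
        ((Matrix.of (sc r U.1)).det ^ l * (starRingEnd ℂ U.1.det) ^ i) := by
    intro U
    have e1 : (W * U).1 = Wm u lam * U.1 := rfl
    rw [e1, det_sc, det_sc, Matrix.det_mul, det_Wm hu, map_mul]
    ring
  simp only [h2] at h1
  rw [integral_const_mul] at h1
  have h3 : lam ^ l * (starRingEnd ℂ lam) ^ i = -1 := by
    rw [hlam, ← Complex.exp_conj, ← Complex.exp_nat_mul, ← Complex.exp_nat_mul, ← Complex.exp_add]
    have : (l : ℂ) * (((π / m : ℝ) : ℂ) * I) + (i : ℂ) * (starRingEnd ℂ) (((π / m : ℝ) : ℂ) * I) =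
        π * I := by
      rw [map_mul, Complex.conj_ofReal, Complex.conj_I]
      have hmc : (l : ℂ) - i ≠ 0 := by
        have : ((l : ℂ) - i) = ((m : ℝ) : ℂ) := by rw [hm]; push_cast; ring
        rw [this]
        exact_mod_cast hm0
      push_cast [hm]
      field_simp
      ring
    rw [this, Complex.exp_pi_mul_I]
  rw [h3] at h1
  unfold Lf
  have h4 : ∀ w : ℂ, -1 * w = w → w = 0 := by
    intro w hw
    have : (2 : ℂ) * w = 0 := by linear_combination -hw
    simpa using this
  exact h4 _ h1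

/-- **the functional kills functions of high degree in one row** -/
theorem kill {r : ℝ} (hr : k * r ^ 2 < 1) {u : Fin k → ℂ} (hu : star u ⬝ᵥ u = 1) {a i : ℕ}
    (hi : i < a) {G H : (Fin k → Fin k → ℂ) → ℂ}
    (hG : ∀ (U : UG k) (lam : ℂ), G (sc r (Wm u lam * U.1)) = lam ^ a * G (sc r U.1))
    (hGc : Continuous G) (hH : DifferentiableOn ℂ H (MB k)) :
    Lf r i (fun Z => G Z * H Z) = 0 := by
  have hdet : ∀ θ : ℝ, ‖Complex.exp ((θ : ℂ) * I)‖ = 1 := fun θ => Complex.norm_exp_ofReal_mul_I θ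
  set K : ℝ → UG k → ℂ := fun θ U =>
    (Complex.exp ((θ : ℂ) * I)) ^ (a - i) * H (sc r (Wm u (Complex.exp ((θ : ℂ) * I)) * U.1)) *
      (G (sc r U.1) * (starRingEnd ℂ U.1.det) ^ i) with hK
  have h1 : ∀ θ : ℝ, ∫ U, K θ U ∂(mu k) = Lf r i (fun Z => G Z * H Z) := by
    intro θ
    set lam := Complex.exp ((θ : ℂ) * I) with hlam
    let W : UG k := ⟨Wm u lam, Wm_mem hu (hdet θ)⟩
    unfold Lf
    rw [← integral_left (fun U : UG k => (G (sc r U.1) * H (sc r U.1)) *
      (starRingEnd ℂ U.1.det) ^ i) W]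
    congr 1
    ext U
    have e1 : (W * U).1 = Wm u lam * U.1 := rfl
    rw [e1, hG, Matrix.det_mul, det_Wm hu, map_mul, mul_pow, hK]
    dsimp only
    rw [← hlam]
    have e2 : lam ^ a = lam ^ (a - i) * lam ^ i := by rw [← pow_add]; congr 1; omega
    have e3 : lam ^ i * (starRingEnd ℂ lam) ^ i = 1 := by
      rw [← mul_pow, Complex.mul_conj, Complex.normSq_eq_norm_sq, hdet θ]
      simp
    rw [e2]
    linear_combination (-(lam ^ (a - i) * G (sc r U.1) * H (sc r (Wm u lam * U.1)) *
      (starRingEnd ℂ U.1.det) ^ i)) * e3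
  have hWc : Continuous fun p : ℝ × UG k => sc r (Wm u (Complex.exp ((p.1 : ℂ) * I)) * p.2.1) := by
    refine (continuous_sc r).comp ?_
    refine Continuous.matrix_mul ?_ (continuous_val.comp continuous_snd)
    unfold Wm
    have h9 : Continuous fun p : ℝ × UG k => Complex.exp ((p.1 : ℂ) * I) - 1 := by fun_prop
    exact continuous_const.add (h9.smul continuous_const)
  have hKc : Continuous (uncurry K) := by
    have h2 : Continuous fun p : ℝ × UG k =>
        H (sc r (Wm u (Complex.exp ((p.1 : ℂ) * I)) * p.2.1)) :=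
      hH.continuousOn.comp_continuous hWc fun p => mem_sc_Wm hr hu (hdet p.1).le p.2
    have h3 : Continuous fun p : ℝ × UG k => G (sc r p.2.1) :=
      hGc.comp ((continuous_sc r).comp (continuous_val.comp continuous_snd))
    have h4 : Continuous fun p : ℝ × UG k => (starRingEnd ℂ p.2.1.det) ^ i :=
      (continuous_wt i).comp continuous_snd
    have h5 : Continuous fun p : ℝ × UG k => (Complex.exp ((p.1 : ℂ) * I)) ^ (a - i) := by fun_prop
    exact (h5.mul h2).mul (h3.mul h4)
  have hint : Integrable (uncurry K) ((volume.restrict (Ioc 0 (2 * π))).prod (mu k)) := by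
    have h2 : IntegrableOn (uncurry K) (Icc 0 (2 * π) ×ˢ univ) (volume.prod (mu k)) :=
      hKc.continuousOn.integrableOn_compact (isCompact_Icc.prod isCompact_univ)
    have h3 : IntegrableOn (uncurry K) (Ioc 0 (2 * π) ×ˢ univ) (volume.prod (mu k)) :=
      h2.mono_set (Set.prod_mono Ioc_subset_Icc_self (subset_univ _))
    have h4 : (volume.restrict (Ioc 0 (2 * π))).prod (mu k) =
        (volume.prod (mu k)).restrict (Ioc 0 (2 * π) ×ˢ univ) := by
      rw [← Measure.prod_restrict, Measure.restrict_univ]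
    rw [h4]
    exact h3
  have hswap := integral_integral_swap (f := K) hint
  simp only [h1] at hswap
  have h0 : ∀ U : UG k, ∫ θ in Ioc 0 (2 * π), K θ U = 0 := by
    intro U
    rw [← intervalIntegral.integral_of_le (by positivity)]
    simp only [hK]
    rw [intervalIntegral.integral_mul_const]
    have h2 : ∫ θ in (0 : ℝ)..(2 * π), (Complex.exp ((θ : ℂ) * I)) ^ (a - i) *
        H (sc r (Wm u (Complex.exp ((θ : ℂ) * I)) * U.1)) = 0 := by
      have hd : DiffContOnCl ℂ (fun lam : ℂ => lam ^ (a - i - 1) * H (sc r (Wm u lam * U.1)))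
          (ball 0 1) := by
        refine DifferentiableOn.diffContOnCl ?_
        rw [closure_ball _ one_ne_zero]
        refine DifferentiableOn.mul (by fun_prop) ?_
        refine hH.comp ?_ ?_
        · have : Differentiable ℂ fun lam : ℂ => sc r (Wm u lam * U.1) := by
            rw [differentiable_pi]
            intro p
            rw [differentiable_pi]
            intro q
            unfold sc Wm
            simp only [Matrix.add_mul, Matrix.smul_mul, Matrix.add_apply, Matrix.smul_apply,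
              smul_eq_mul]
            fun_prop
          exact this.differentiableOn
        · intro lam hlam
          rw [mem_closedBall_zero_iff] at hlam
          exact mem_sc_Wm hr hu hlam U
      have h3 := hd.circleIntegral_eq_zero zero_le_one
      rw [circleIntegral] at h3
      simp only [deriv_circleMap, circleMap, zero_add, Complex.ofReal_one, one_mul, smul_eq_mul] at h3
      have h4 : ∀ θ : ℝ, Complex.exp ((θ : ℂ) * I) * I *
          (Complex.exp ((θ : ℂ) * I) ^ (a - i - 1) *
            H (sc r (Wm u (Complex.exp ((θ : ℂ) * I)) * U.1))) =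
          I * ((Complex.exp ((θ : ℂ) * I)) ^ (a - i) *
        H (sc r (Wm u (Complex.exp ((θ : ℂ) * I)) * U.1))) := by
        intro θ
        have : (Complex.exp ((θ : ℂ) * I)) ^ (a - i) =
            Complex.exp ((θ : ℂ) * I) * (Complex.exp ((θ : ℂ) * I)) ^ (a - i - 1) := by
          rw [← pow_succ']
          congr 1
          omega
        rw [this]
        ring
      simp only [h4] at h3
      rw [intervalIntegral.integral_const_mul] at h3
      exact (mul_eq_zero.1 h3).resolve_left I_ne_zero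
    rw [h2, zero_mul]
  simp only [h0, integral_zero] at hswap
  rw [setIntegral_const] at hswap
  rcases smul_eq_zero.1 hswap with h2 | h2
  · exfalso
    rw [Measure.real, Real.volume_Ioc] at h2
    have : (0 : ℝ) ≤ 2 * π - 0 := by
      have := Real.pi_pos
      linarith
    rw [ENNReal.toReal_ofReal this] at h2
    have := Real.pi_pos
    linarith
  · exact h2

end Pool.Agent.Helper34K9.Cor
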