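import Mathlib
import Pool.Agent.H720R2.Core3

set_option autoImplicit false

open Complex Set Function Metric
open scoped Real Topology

namespace Pool.Agent.Helper34K9.Cor

open Pool.Agent.H720R2

/-- exponential growth of the coefficients of `1 / A` -/
theorem exists_large {A : ℂ → ℂ} (hA : DifferentiableOn ℂ A (ball 0 1)) (hA0 : A 0 ≠ 0)
    {K : ℝ} (hK : ∀ t ∈ ball (0 : ℂ) 1, ‖A t‖ ≤ K) {t₀ : ℂ} (ht₀ : ‖t₀‖ < 1) (hz : A t₀ = 0) :
    ∃ R c₂ : ℝ, 1 < R ∧ 0 < c₂ ∧ ∀ a : ℕ, 0 < a → ∃ i < a, c₂ * R ^ a ≤ ‖qseq A i‖ := by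
  have ht0 : t₀ ≠ 0 := by
    rintro rfl
    exact hA0 hz
  have hn0 : 0 < ‖t₀‖ := norm_pos_iff.2 ht0
  obtain ⟨ρ, hρ1, hρ2⟩ := exists_between ht₀
  have hρ0 : 0 < ρ := lt_of_le_of_lt (norm_nonneg _) hρ1
  have hKpos : 0 < K := lt_of_lt_of_le (norm_pos_iff.2 hA0) (hK 0 (mem_ball_self one_pos))
  have h1ρ : 0 < 1 - ρ := by linarith
  set R : ℝ := ρ / ‖t₀‖ with hR
  have hR1 : 1 < R := by rw [hR, one_lt_div hn0]; exact hρ1
  have hR0 : 0 < R := by linarith
  refine ⟨R, (1 - R⁻¹) * (1 - ρ) / K, hR1, ?_, ?_⟩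
  · have : R⁻¹ < 1 := inv_lt_one_of_one_lt₀ hR1
    have : 0 < 1 - R⁻¹ := by linarith
    positivity
  intro a ha
  obtain ⟨i, hi, hmax⟩ := Finset.exists_max_image (Finset.range a) (fun i => ‖qseq A i‖)
    ⟨0, Finset.mem_range.2 ha⟩
  refine ⟨i, Finset.mem_range.1 hi, ?_⟩
  set C := ‖qseq A i‖ with hC
  have hC0 : 0 ≤ C := norm_nonneg _
  set B : ℝ := K * (C * (1 - ρ)⁻¹) + 1 with hB
  have hB0 : 0 ≤ B := by positivity
  have hbd : ∀ t : ℂ, ‖t‖ = ρ → ‖Rseq A a t‖ ≤ B / ρ ^ a := by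
    intro t ht
    have h1 := trunc_eq hA0 a t
    have h2 : t ^ a * Rseq A a t = A t * ∑ j ∈ Finset.range a, qseq A j * t ^ j - 1 := by
      rw [h1]; ring
    have h3 : ‖t ^ a * Rseq A a t‖ ≤ B := by
      rw [h2]
      have ht1 : t ∈ ball (0 : ℂ) 1 := by rw [mem_ball_zero_iff, ht]; exact hρ2
      calc ‖A t * ∑ j ∈ Finset.range a, qseq A j * t ^ j - 1‖
          ≤ ‖A t * ∑ j ∈ Finset.range a, qseq A j * t ^ j‖ + ‖(1 : ℂ)‖ := norm_sub_le _ _
        _ ≤ K * (C * (1 - ρ)⁻¹) + 1 := by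
            rw [norm_mul, norm_one]
            gcongr
            · exact hK t ht1
            · calc ‖∑ j ∈ Finset.range a, qseq A j * t ^ j‖
                  ≤ ∑ j ∈ Finset.range a, ‖qseq A j * t ^ j‖ := norm_sum_le _ _
                _ ≤ ∑ j ∈ Finset.range a, C * ρ ^ j := by
                    refine Finset.sum_le_sum fun j hj => ?_
                    rw [norm_mul, norm_pow, ht]
                    gcongr
                    exact hmax j hj
                _ = C * ∑ j ∈ Finset.range a, ρ ^ j := by rw [Finset.mul_sum]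
                _ ≤ C * (1 - ρ)⁻¹ := by gcongr; exact geom_sum_le hρ0.le hρ2 a
    rw [norm_mul, norm_pow, ht] at h3
    rw [le_div_iff₀ (by positivity)]
    linarith
  have hone : R ^ a ≤ B := by
    have h1 := trunc_eq hA0 a t₀
    rw [hz, zero_mul] at h1
    have h2 : ‖t₀ ^ a * Rseq A a t₀‖ = 1 := by
      have : t₀ ^ a * Rseq A a t₀ = -1 := by linear_combination -h1
      rw [this]; simp
    have h3 : ‖Rseq A a t₀‖ ≤ B / ρ ^ a := by
      refine Complex.norm_le_of_forall_mem_frontier_norm_le (U := ball (0 : ℂ) ρ) isBounded_ball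
        ?_ ?_ ?_
      · refine DifferentiableOn.diffContOnCl ?_
        rw [closure_ball _ hρ0.ne']
        exact (differentiableOn_Rseq hA a).mono (closedBall_subset_ball hρ2)
      · intro z hz
        rw [frontier_ball _ hρ0.ne', mem_sphere_zero_iff_norm] at hz
        exact hbd z hz
      · apply subset_closure
        rw [mem_ball_zero_iff]; exact hρ1
    rw [norm_mul, norm_pow] at h2
    have h4 : (1 : ℝ) ≤ ‖t₀‖ ^ a * (B / ρ ^ a) := by
      rw [← h2]; gcongr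
    rw [hR, div_pow, div_le_iff₀ (by positivity)]
    have h5 : ‖t₀‖ ^ a * (B / ρ ^ a) * ρ ^ a = B * ‖t₀‖ ^ a := by field_simp
    calc ρ ^ a = 1 * ρ ^ a := (one_mul _).symm
      _ ≤ (‖t₀‖ ^ a * (B / ρ ^ a)) * ρ ^ a := by gcongr
      _ = _ := h5
  have h6 : (1 - R⁻¹) * R ^ a ≤ R ^ a - 1 := by
    have h7 : R⁻¹ * R ^ a = R ^ (a - 1) := by
      obtain ⟨m, rfl⟩ : ∃ m, a = m + 1 := ⟨a - 1, by omega⟩
      rw [pow_succ, Nat.add_sub_cancel]
      field_simp
    have h8 : 1 ≤ R ^ (a - 1) := one_le_pow₀ hR1.le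
    nlinarith
  have h9 : R ^ a - 1 ≤ K * C / (1 - ρ) := by
    have : B = K * C / (1 - ρ) + 1 := by rw [hB]; ring
    linarith
  rw [le_div_iff₀ h1ρ] at h9
  have e : (1 - R⁻¹) * (1 - ρ) / K * R ^ a = ((1 - R⁻¹) * R ^ a) * (1 - ρ) / K := by ring
  rw [e, div_le_iff₀ hKpos]
  nlinarith

end Pool.Agent.Helper34K9.Cor
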