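import Mathlib

set_option autoImplicit false

open Set Function

namespace Pool.Agent.Helper34K9.Cor

variable {a T k q : ℕ}

/-- the `l`-th block of letters -/
def Bl (k q l : ℕ) : Finset (Fin k) := Finset.univ.filter fun i => l * q ≤ i.1 ∧ i.1 < (l + 1) * q

theorem mem_Bl {l : ℕ} {i : Fin k} : i ∈ Bl k q l ↔ l * q ≤ i.1 ∧ i.1 < (l + 1) * q := by
  simp [Bl]

theorem card_Bl {l : ℕ} (h : (l + 1) * q ≤ k) : q ≤ (Bl k q l).card := by
  have hlt : ∀ t : Fin q, l * q + t.1 < k := fun t => by
    have := t.2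
    have h2 : (l + 1) * q = l * q + q := by ring
    omega
  set f : Fin q → Fin k := fun t => ⟨l * q + t.1, hlt t⟩ with hf
  have hinj : Injective f := by
    intro s t hst
    have := congrArg Fin.val hst
    simp only [hf] at this
    exact Fin.ext (by omega)
  have h1 : (Finset.univ.image f) ⊆ Bl k q l := by
    intro i hi
    obtain ⟨t, -, rfl⟩ := Finset.mem_image.1 hi
    rw [mem_Bl]
    simp only [hf]
    have := t.2
    have h2 : (l + 1) * q = l * q + q := by ring
    omega
  have h2 := Finset.card_le_card h1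
  rwa [Finset.card_image_of_injective _ hinj, Finset.card_univ, Fintype.card_fin] at h2

/-- the positions -/
abbrev Pos (b T : ℕ) : Type := Fin b ×ₗ Fin T

/-- the block of a position -/
def blk {b T : ℕ} (p : Pos b T) : Fin b := (ofLex p).1

/-- the word `w` has at some position of block `l` a letter of block `l` -/
def Succ (b T k q : ℕ) (w : Pos b T → Fin k) (l : Fin b) : Prop :=
  ∃ t : Fin T, w (toLex (l, t)) ∈ Bl k q l

open Classical in
/-- the words with many successes -/
noncomputable def Good (a b T k q : ℕ) : Finset (Pos b T → Fin k) :=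
  Finset.univ.filter fun w => a ≤ (Finset.univ.filter fun l => Succ b T k q w l).card

theorem good_mono {b : ℕ} (hT : 0 < T) {w : Pos b T → Fin k} (hw : w ∈ Good a b T k q) :
    ∃ A : Finset (Pos b T), A.card = a ∧ MonotoneOn w A := by
  classical
  have : Nonempty (Fin T) := ⟨⟨0, hT⟩⟩
  rw [Good, Finset.mem_filter] at hw
  obtain ⟨S, hS1, hS2⟩ := Finset.exists_subset_card_eq hw.2
  have hS3 : ∀ l ∈ S, ∃ t : Fin T, w (toLex (l, t)) ∈ Bl k q l := fun l hl =>
    (Finset.mem_filter.1 (hS1 hl)).2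
  choose! t ht using hS3
  refine ⟨S.image fun l => toLex (l, t l), ?_, ?_⟩
  · rw [Finset.card_image_of_injective _ ?_, hS2]
    intro l l' h
    exact (Prod.ext_iff.1 (toLex.injective h)).1
  · intro p hp p' hp' hpp
    rw [Finset.mem_coe, Finset.mem_image] at hp hp'
    obtain ⟨l, hl, rfl⟩ := hp
    obtain ⟨l', hl', rfl⟩ := hp'
    rw [Prod.Lex.toLex_le_toLex] at hpp
    rcases hpp with h | ⟨h, -⟩
    · have h1 := mem_Bl.1 (ht l hl)
      have h2 := mem_Bl.1 (ht l' hl')
      have h3 : (l.1 + 1) * q ≤ l'.1 * q := Nat.mul_le_mul_right q (by exact h)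
      show (w (toLex (l, t l))).1 ≤ (w (toLex (l', t l'))).1
      omega
    · have h : l = l' := h
      rw [h]

theorem fail_mass {b : ℕ} (x : Fin k → ℝ) (hx : ∀ i, 0 ≤ x i) (hs : ∑ i, x i ≤ 1) (l : Fin b)
    {p0 : ℝ} (hp : p0 ≤ ∑ i ∈ Bl k q l, x i) [DecidablePred fun w => Succ b T k q w l] :
    ∑ w : Pos b T → Fin k, (∏ p, x (w p)) * (if Succ b T k q w l then 0 else 1) ≤
      Real.exp (-(T * p0)) := by
  classical
  have h1 : ∀ w : Pos b T → Fin k, (∏ p, x (w p)) * (if Succ b T k q w l then (0 : ℝ) else 1) =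
      ∏ p, (x (w p) * if blk p = l ∧ w p ∈ Bl k q l then 0 else 1) := by
    intro w
    rw [Finset.prod_mul_distrib]
    congr 1
    split_ifs with h
    · obtain ⟨t, ht⟩ := h
      symm
      apply Finset.prod_eq_zero (Finset.mem_univ (toLex (l, t)))
      rw [if_pos]
      exact ⟨rfl, ht⟩
    · symm
      apply Finset.prod_eq_one
      intro p _
      rw [if_neg]
      rintro ⟨h2, h3⟩
      apply h
      refine ⟨(ofLex p).2, ?_⟩
      have : toLex (l, (ofLex p).2) = p := by
        rw [← h2]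
        rfl
      rw [this]
      exact h3
  have h2 := Finset.prod_univ_sum (fun _ : Pos b T => (Finset.univ : Finset (Fin k)))
    (fun p i => x i * if blk p = l ∧ i ∈ Bl k q l then (0 : ℝ) else 1)
  rw [Fintype.piFinset_univ] at h2
  rw [Finset.sum_congr rfl fun w _ => h1 w, ← h2]
  have h3 : ∀ p : Pos b T, ∑ i, x i * (if blk p = l ∧ i ∈ Bl k q l then (0 : ℝ) else 1) ≤
      if blk p = l then Real.exp (-p0) else 1 := by
    intro p
    by_cases hpl : blk p = l
    · rw [if_pos hpl]
      have h4 : ∑ i, x i * (if blk p = l ∧ i ∈ Bl k q l then (0 : ℝ) else 1) =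
          ∑ i, x i - ∑ i ∈ Bl k q l, x i := by
        rw [← Finset.sum_filter_add_sum_filter_not Finset.univ (fun i => i ∈ Bl k q l)
          (fun i => x i)]
        rw [← Finset.sum_filter_add_sum_filter_not Finset.univ (fun i => i ∈ Bl k q l)
          (fun i => x i * (if blk p = l ∧ i ∈ Bl k q l then (0 : ℝ) else 1))]
        rw [Finset.sum_eq_zero (s := Finset.univ.filter fun i => i ∈ Bl k q l)]
        · rw [Finset.filter_mem_eq_inter, Finset.univ_inter]
          rw [Finset.sum_congr rfl (g := fun i => x i)]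
          · ring
          · intro i hi
            rw [if_neg, mul_one]
            rintro ⟨-, h⟩
            exact (Finset.mem_filter.1 hi).2 h
        · intro i hi
          rw [if_pos ⟨hpl, (Finset.mem_filter.1 hi).2⟩, mul_zero]
      rw [h4]
      have := Real.add_one_le_exp (-p0)
      linarith
    · rw [if_neg hpl]
      calc ∑ i, x i * (if blk p = l ∧ i ∈ Bl k q l then (0 : ℝ) else 1) ≤ ∑ i, x i := by
            refine Finset.sum_le_sum fun i _ => ?_
            rw [if_neg (fun h => hpl h.1), mul_one]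
        _ ≤ 1 := hs
  calc ∏ p : Pos b T, ∑ i, x i * (if blk p = l ∧ i ∈ Bl k q l then (0 : ℝ) else 1)
      ≤ ∏ p : Pos b T, (if blk p = l then Real.exp (-p0) else 1) := by
        refine Finset.prod_le_prod (fun p _ => ?_) fun p _ => h3 p
        refine Finset.sum_nonneg fun i _ => mul_nonneg (hx i) ?_
        split_ifs <;> norm_num
    _ = Real.exp (-p0) ^ T := by
        rw [Finset.prod_ite, Finset.prod_const_one, mul_one, Finset.prod_const]
        have hcard : (Finset.univ : Finset (Fin T)).card =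
            (Finset.univ.filter fun p : Pos b T => blk p = l).card := by
          refine Finset.card_bij (fun t _ => toLex (l, t)) ?_ ?_ ?_
          · intro t _
            rw [Finset.mem_filter]
            exact ⟨Finset.mem_univ _, rfl⟩
          · intro t _ t' _ h
            exact (Prod.ext_iff.1 (toLex.injective h)).2
          · intro p hp
            refine ⟨(ofLex p).2, Finset.mem_univ _, ?_⟩
            rw [← (Finset.mem_filter.1 hp).2]
            rfl
        rw [← hcard, Finset.card_univ, Fintype.card_fin]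
    _ = Real.exp (-(T * p0)) := by
        rw [← Real.exp_nat_mul]
        congr 1
        ring

theorem bad_le (ha : 0 < a) (x : Fin k → ℝ) (hx : ∀ i, 0 ≤ x i) (hs : ∑ i, x i ≤ 1)
    {p0 : ℝ} (hp : ∀ l : Fin (2 * a), p0 ≤ ∑ i ∈ Bl k q l, x i) :
    ∑ w ∈ (Good a (2 * a) T k q)ᶜ, ∏ p, x (w p) ≤ 2 * Real.exp (-(T * p0)) := by
  classical
  have ha' : (0 : ℝ) < a := by exact_mod_cast ha
  have hX : ∀ w : Pos (2 * a) T → Fin k, 0 ≤ ∏ p, x (w p) := fun w =>
    Finset.prod_nonneg fun p _ => hx _
  have h1 : ∀ w ∈ (Good a (2 * a) T k q)ᶜ, ∏ p, x (w p) ≤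
      (1 / a) * ∑ l : Fin (2 * a), (∏ p, x (w p)) * (if Succ (2 * a) T k q w l then 0 else 1) := by
    intro w hw
    rw [Finset.mem_compl, Good, Finset.mem_filter] at hw
    push Not at hw
    have h2 := hw (Finset.mem_univ _)
    rw [← Finset.mul_sum]
    have h3 : (a : ℝ) ≤ ∑ l : Fin (2 * a), (if Succ (2 * a) T k q w l then (0 : ℝ) else 1) := by
      have h4 : ∑ l : Fin (2 * a), (if Succ (2 * a) T k q w l then (0 : ℝ) else 1) =
          ((Finset.univ.filter fun l : Fin (2 * a) => ¬ Succ (2 * a) T k q w l).card : ℝ) := by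
        rw [Finset.card_filter]
        push_cast
        refine Finset.sum_congr rfl fun l _ => ?_
        by_cases h : Succ (2 * a) T k q w l <;> simp [h]
      rw [h4]
      have h5 := Finset.card_filter_add_card_filter_not (s := Finset.univ)
        (fun l : Fin (2 * a) => Succ (2 * a) T k q w l)
      rw [Finset.card_univ, Fintype.card_fin] at h5
      have h6 : a ≤ (Finset.univ.filter fun l : Fin (2 * a) => ¬ Succ (2 * a) T k q w l).card := by
        omega
      exact_mod_cast h6
    have h4 := hX w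
    calc ∏ p, x (w p) = (1 / a) * ((∏ p, x (w p)) * a) := by field_simp
      _ ≤ _ := by gcongr
  calc ∑ w ∈ (Good a (2 * a) T k q)ᶜ, ∏ p, x (w p) ≤ ∑ w ∈ (Good a (2 * a) T k q)ᶜ,
        (1 / a) * ∑ l : Fin (2 * a), (∏ p, x (w p)) * (if Succ (2 * a) T k q w l then 0 else 1) :=
        Finset.sum_le_sum h1
    _ ≤ ∑ w : Pos (2 * a) T → Fin k,
        (1 / a) * ∑ l : Fin (2 * a), (∏ p, x (w p)) * (if Succ (2 * a) T k q w l then 0 else 1) := by
        refine Finset.sum_le_sum_of_subset_of_nonneg (Finset.subset_univ _) fun w _ _ => ?_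
        have := hX w
        refine mul_nonneg (by positivity) (Finset.sum_nonneg fun l _ => mul_nonneg this ?_)
        split_ifs <;> norm_num
    _ = (1 / a) * ∑ l : Fin (2 * a), ∑ w : Pos (2 * a) T → Fin k,
        (∏ p, x (w p)) * (if Succ (2 * a) T k q w l then 0 else 1) := by
        rw [← Finset.mul_sum, Finset.sum_comm]
    _ ≤ (1 / a) * ∑ _l : Fin (2 * a), Real.exp (-(T * p0)) := by
        gcongr with l _
        exact fail_mass x hx hs l (hp l)
    _ = 2 * Real.exp (-(T * p0)) := by
        rw [Finset.sum_const, Finset.card_univ, Fintype.card_fin, nsmul_eq_mul]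
        push_cast
        field_simp

theorem small_bound {y : ℝ} (h0 : 0 ≤ y) (h1 : y ≤ 1 / 2) : y ≤ 0.9 * Real.exp (y - 1) := by
  have h2 : Real.exp (y - 1) = Real.exp y * Real.exp (-1) := by rw [← Real.exp_add]; ring_nf
  have h3 := Real.quadratic_le_exp_of_nonneg h0
  have h4 : (0.367 : ℝ) ≤ Real.exp (-1) := by
    have := Real.exp_neg_one_gt_d9
    linarith
  have h5 : (1 + y + y ^ 2 / 2) * 0.367 ≤ Real.exp y * Real.exp (-1) := by gcongr
  rw [h2]
  nlinarith [mul_nonneg h0 h0]

/-- few of the `x_i` are small -/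
theorem few_small (x : Fin k → ℝ) (hx : ∀ i, 0 ≤ x i) (hs : ∑ i, x i ≤ 1) {κ : ℝ}
    (hκ : κ ≤ ∏ i, (k * x i)) {m : ℕ} (hm : (0.9 : ℝ) ^ (m + 1) < κ) :
    (Finset.univ.filter fun i => k * x i < 1 / 2).card ≤ m := by
  by_contra hcon
  push Not at hcon
  set S := Finset.univ.filter fun i => k * x i < 1 / 2 with hS
  have h1 : ∏ i, (k * x i) ≤ ∏ i, ((if i ∈ S then (0.9 : ℝ) else 1) * Real.exp (k * x i - 1)) := by
    refine Finset.prod_le_prod (fun i _ => mul_nonneg (Nat.cast_nonneg _) (hx i)) fun i _ => ?_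
    split_ifs with h
    · rw [hS, Finset.mem_filter] at h
      exact small_bound (mul_nonneg (Nat.cast_nonneg _) (hx i)) h.2.le
    · rw [one_mul]
      have := Real.add_one_le_exp (k * x i - 1)
      linarith
  have e1 : ∏ i, ((if i ∈ S then (0.9 : ℝ) else 1) * Real.exp (k * x i - 1)) =
      0.9 ^ (Finset.univ.filter fun i => i ∈ S).card *
        Real.exp (k * ∑ i, x i - ∑ _i : Fin k, (1 : ℝ)) := by
    rw [Finset.prod_mul_distrib, ← Real.exp_sum, Finset.sum_sub_distrib, ← Finset.mul_sum,
      Finset.prod_ite, Finset.prod_const_one, mul_one, Finset.prod_const]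
  rw [e1] at h1
  have h2 : Real.exp (k * ∑ i, x i - ∑ _i : Fin k, (1 : ℝ)) ≤ 1 := by
    rw [Real.exp_le_one_iff]
    simp only [Finset.sum_const, Finset.card_univ, Fintype.card_fin, nsmul_eq_mul, mul_one]
    have : (0 : ℝ) ≤ k := Nat.cast_nonneg _
    nlinarith
  have h3 : (0.9 : ℝ) ^ (Finset.univ.filter fun i => i ∈ S).card ≤ 0.9 ^ (m + 1) := by
    apply pow_le_pow_of_le_one (by norm_num) (by norm_num)
    rw [Finset.filter_mem_eq_inter, Finset.univ_inter]
    exact hcon
  have h4 : (0 : ℝ) ≤ 0.9 ^ (Finset.univ.filter fun i => i ∈ S).card := by positivity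
  have h5 : (0 : ℝ) < Real.exp (k * ∑ i, x i - ∑ _i : Fin k, (1 : ℝ)) := Real.exp_pos _
  nlinarith

/-- the mass of a block -/
theorem block_mass (x : Fin k → ℝ) (hx : ∀ i, 0 ≤ x i) {m : ℕ}
    (hm : (Finset.univ.filter fun i => k * x i < 1 / 2).card ≤ m) (hk : 0 < k) {l : ℕ}
    (hl : (l + 1) * q ≤ k) (hq : 2 * m ≤ q) : (q : ℝ) / (4 * k) ≤ ∑ i ∈ Bl k q l, x i := by
  classical
  have hk' : (0 : ℝ) < k := by exact_mod_cast hk
  set S := Finset.univ.filter fun i => k * x i < 1 / 2 with hS
  have h1 : q ≤ (Bl k q l \ S).card + m := by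
    have h2 := Finset.card_le_card_sdiff_add_card (s := Bl k q l) (t := S)
    have h3 := card_Bl hl
    omega
  have h2 : ((Bl k q l \ S).card : ℝ) * (1 / (2 * k)) ≤ ∑ i ∈ Bl k q l, x i := by
    calc ((Bl k q l \ S).card : ℝ) * (1 / (2 * k)) = ∑ _i ∈ Bl k q l \ S, (1 / (2 * (k : ℝ))) := by
          rw [Finset.sum_const, nsmul_eq_mul]
      _ ≤ ∑ i ∈ Bl k q l \ S, x i := by
          refine Finset.sum_le_sum fun i hi => ?_
          rw [Finset.mem_sdiff, hS, Finset.mem_filter] at hi
          have h3 := hi.2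
          push Not at h3
          have h4 := h3 (Finset.mem_univ _)
          rw [div_le_iff₀ (by positivity)]
          linarith
      _ ≤ ∑ i ∈ Bl k q l, x i :=
          Finset.sum_le_sum_of_subset_of_nonneg Finset.sdiff_subset fun i _ _ => hx i
  refine le_trans ?_ h2
  have h3 : (q : ℝ) ≤ (Bl k q l \ S).card + m := by exact_mod_cast h1
  have h4 : (2 * m : ℝ) ≤ q := by exact_mod_cast hq
  rw [div_le_iff₀ (by positivity)]
  have h5 : ((Bl k q l \ S).card : ℝ) * (1 / (2 * k)) * (4 * k) = 2 * (Bl k q l \ S).card := by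
    field_simp
    ring
  rw [h5]
  linarith

end Pool.Agent.Helper34K9.Cor
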