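import Pool.Agent.Helper34K9.Cor.Spec
import Pool.Agent.Helper34K9.Cor.Prob
import Pool.Agent.Helper34K9.Cor.Kill
import Pool.Agent.Helper34K9.Cor.Large

set_option autoImplicit false
set_option linter.unusedSectionVars false

open Set Function Module Matrix

namespace Pool.Agent.Helper34K9.Cor

open Pool.Agent.H720R2

/-- the data -/
noncomputable def ff (a T k : ℕ) (β : Fin (finrank ℂ (LL (Pos (2 * a) T) k a)))
    (v : Pos (2 * a) T → Fin k) (Z : Fin k → Fin k → ℂ) : ℂ :=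
  inner ℂ (bb (LL (Pos (2 * a) T) k a) β) (colT (Matrix.of Z) v)

variable {a T k q : ℕ}

theorem inner_colT {P : Type} [Fintype P] [LinearOrder P] (b : VV P k) (v : P → Fin k)
    (Z : Fin k → Fin k → ℂ) :
    inner ℂ b (colT (Matrix.of Z) v) = ∑ w : P → Fin k, (∏ p, Z (w p) (v p)) * star (b w) := by
  rw [PiLp.inner_apply]
  refine Finset.sum_congr rfl fun w _ => ?_
  unfold colT
  rw [tens_apply]
  simp

theorem differentiable_inner {P : Type} [Fintype P] [LinearOrder P] (b : VV P k)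
    (v : P → Fin k) : Differentiable ℂ fun Z : Fin k → Fin k → ℂ =>
      inner ℂ b (colT (Matrix.of Z) v) := by
  simp only [inner_colT]
  have h1 : ∀ i j : Fin k, Differentiable ℂ fun Z : Fin k → Fin k → ℂ => Z i j := by
    intro i j
    fun_prop
  refine Differentiable.fun_sum fun w _ => ?_
  have h2 : Differentiable ℂ fun Z : Fin k → Fin k → ℂ => ∏ p, Z (w p) (v p) := by
    classical
    generalize (Finset.univ : Finset P) = s
    induction s using Finset.induction_on with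
    | empty => simp
    | insert p s hp ih =>
      simp only [Finset.prod_insert hp]
      exact (h1 (w p) (v p)).mul ih
  exact h2.mul_const _

theorem differentiable_ff (β : Fin (finrank ℂ (LL (Pos (2 * a) T) k a)))
    (v : Pos (2 * a) T → Fin k) : Differentiable ℂ (ff a T k β v) :=
  differentiable_inner _ v

/-- the sum of the squares -/
noncomputable def SS (a T k : ℕ) (Z : Fin k → Fin k → ℂ) : ℝ :=
  ∑ β, ∑ v, ‖ff a T k β v Z‖ ^ 2

theorem SS_eq {Z : Fin k → Fin k → ℂ} {W : UG k} {x : Fin k → ℝ}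
    (h : Matrix.of Z * (Matrix.of Z)ᴴ = W.1 * Matrix.diagonal (fun l => (x l : ℂ)) * (W.1)ᴴ) :
    SS a T k Z = ∑ u : Pos (2 * a) T → Fin k, (∏ p, x (u p)) * QQ (LL (Pos (2 * a) T) k a) (eW W u) := by
  unfold SS ff
  have h1 : ∀ β, ∑ v : Pos (2 * a) T → Fin k,
      ‖inner ℂ (bb (LL (Pos (2 * a) T) k a) β) (colT (Matrix.of Z) v)‖ ^ 2 =
      ∑ u : Pos (2 * a) T → Fin k, (∏ p, x (u p)) *
        ‖inner ℂ (bb (LL (Pos (2 * a) T) k a) β) (eW W u)‖ ^ 2 := fun β => sum_colT_eq h _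
  rw [Finset.sum_congr rfl fun β _ => h1 β, Finset.sum_comm]
  refine Finset.sum_congr rfl fun u _ => ?_
  unfold QQ
  rw [Finset.mul_sum]

theorem sum_words {P : Type} [Fintype P] [DecidableEq P] (x : Fin k → ℝ) :
    ∑ u : P → Fin k, ∏ p, x (u p) = (∑ i, x i) ^ (Fintype.card P) := by
  have h2 := Finset.prod_univ_sum (fun _ : P => (Finset.univ : Finset (Fin k))) (fun _ i => x i)
  rw [Fintype.piFinset_univ] at h2
  rw [← h2, Finset.prod_const, Finset.card_univ]

theorem card_Pos (b T : ℕ) : Fintype.card (Pos b T) = b * T := by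
  have : Fintype.card (Pos b T) = Fintype.card (Fin b × Fin T) := Fintype.card_congr ofLex
  rw [this, Fintype.card_prod, Fintype.card_fin, Fintype.card_fin]

/-- the normalized determinant -/
noncomputable def gm (k : ℕ) (Z : Fin k → Fin k → ℂ) : ℂ :=
  ((Real.sqrt k ^ k : ℝ) : ℂ) * (Matrix.of Z).det

theorem norm_gm_sq {Z : Fin k → Fin k → ℂ} {x : Fin k → ℝ}
    (h : ∏ i, x i = ‖(Matrix.of Z).det‖ ^ 2) : ‖gm k Z‖ ^ 2 = ∏ i, (k * x i) := by
  unfold gm
  rw [norm_mul, mul_pow, Complex.norm_real, Real.norm_of_nonneg (by positivity), ← h,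
    Finset.prod_mul_distrib, Finset.prod_const, Finset.card_univ, Fintype.card_fin, ← pow_mul,
    mul_comm k 2, pow_mul, Real.sq_sqrt (Nat.cast_nonneg k)]

theorem norm_gm_le (Z : Fin k → Fin k → ℂ) : ‖gm k Z‖ ^ 2 ≤ hs Z ^ k := by
  obtain ⟨W, x, hx, h1, h2, h3⟩ := exists_spec (Matrix.of Z)
  rw [norm_gm_sq h3]
  have : hs Z = ∑ i, x i := h2.symm
  rw [this]
  exact prod_le_pow_sum hx

theorem hs_nonneg (Z : Fin k → Fin k → ℂ) : 0 ≤ hs Z :=
  Finset.sum_nonneg fun _ _ => Finset.sum_nonneg fun _ _ => by positivity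

theorem norm_gm_lt_one (hk : 0 < k) {Z : Fin k → Fin k → ℂ} (hZ : Z ∈ MB k) : ‖gm k Z‖ < 1 := by
  have h1 := norm_gm_le Z
  have h2 : hs Z ^ k < 1 := pow_lt_one₀ (hs_nonneg Z) hZ hk.ne'
  have h3 : ‖gm k Z‖ ^ 2 < 1 := lt_of_le_of_lt h1 h2
  nlinarith [norm_nonneg (gm k Z)]

theorem SS_nonneg (Z : Fin k → Fin k → ℂ) : 0 ≤ SS a T k Z :=
  Finset.sum_nonneg fun _ _ => Finset.sum_nonneg fun _ _ => by positivity

theorem norm_eW {P : Type} [Fintype P] [LinearOrder P] (W : UG k) (w : P → Fin k) :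
    ‖eW W w‖ = 1 := (orthonormal_eW W).1 w

theorem SS_le_one {Z : Fin k → Fin k → ℂ} (hZ : Z ∈ MB k) : SS a T k Z ≤ 1 := by
  obtain ⟨W, x, hx, h1, h2, h3⟩ := exists_spec (Matrix.of Z)
  rw [SS_eq h1]
  calc ∑ u : Pos (2 * a) T → Fin k, (∏ p, x (u p)) * QQ (LL (Pos (2 * a) T) k a) (eW W u)
      ≤ ∑ u : Pos (2 * a) T → Fin k, (∏ p, x (u p)) * 1 := by
        refine Finset.sum_le_sum fun u _ => ?_
        refine mul_le_mul_of_nonneg_left ?_ (Finset.prod_nonneg fun p _ => hx _)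
        refine (QQ_le _ _).trans ?_
        rw [norm_eW, one_pow]
    _ = (∑ i, x i) ^ (Fintype.card (Pos (2 * a) T)) := by
        simp only [mul_one]
        exact sum_words x
    _ ≤ 1 := by
        refine pow_le_one₀ (Finset.sum_nonneg fun i _ => hx i) ?_
        rw [h2]
        exact (le_of_lt hZ)

/-- **the main estimate** -/
theorem main_est (hk : 0 < k) (ha : 0 < a) (hT : 0 < T) {ε : ℝ} (hε : 0 < ε) {m : ℕ}
    (hd : (2 * a * T : ℝ) ≤ ε * k) (hm : (0.9 : ℝ) ^ (m + 1) < 2 * ε) (hq : 2 * m ≤ q)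
    (hqk : 2 * a * q ≤ k) (hexp : Real.exp (-(T * ((q : ℝ) / (4 * k)))) ≤ ε)
    {Z : Fin k → Fin k → ℂ} (hZ : Z ∈ MB k) : ‖gm k Z‖ ^ 2 * (1 - SS a T k Z) ≤ 3 * ε := by
  classical
  have : NeZero k := ⟨hk.ne'⟩
  obtain ⟨W, x, hx, h1, h2, h3⟩ := exists_spec (Matrix.of Z)
  set s : ℝ := ∑ i, x i with hs'
  have hs1 : s ≤ 1 := by rw [h2]; exact le_of_lt hZ
  have hs0 : 0 ≤ s := Finset.sum_nonneg fun i _ => hx i
  set G := ‖gm k Z‖ ^ 2 with hG
  have hGs : G ≤ s ^ k := by rw [h2]; exact norm_gm_le Z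
  have hG1 : G ≤ 1 := hGs.trans (pow_le_one₀ hs0 hs1)
  have hG0 : 0 ≤ G := by positivity
  set X : (Pos (2 * a) T → Fin k) → ℝ := fun w => ∏ p, x (w p) with hX
  have hX0 : ∀ w, 0 ≤ X w := fun w => Finset.prod_nonneg fun p _ => hx _
  set bad : ℝ := ∑ w ∈ (Good a (2 * a) T k q)ᶜ, X w with hbad
  have hall : ∑ w, X w = s ^ (2 * a * T) := by
    rw [hX, sum_words, card_Pos]
  have hsplit : ∑ w ∈ Good a (2 * a) T k q, X w + bad = s ^ (2 * a * T) := by
    rw [← hall, hbad]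
    exact Finset.sum_add_sum_compl _ _
  have hS : s ^ (2 * a * T) - bad ≤ SS a T k Z := by
    rw [SS_eq h1]
    have h4 := sum_good_le W x hx a (Good a (2 * a) T k q) fun w hw => good_mono hT hw
    have h5 : ∑ w ∈ Good a (2 * a) T k q, X w = s ^ (2 * a * T) - bad := by linarith
    rw [← h5]
    exact h4
  have hbad0 : 0 ≤ bad := Finset.sum_nonneg fun w _ => hX0 w
  have hbad1 : bad ≤ 1 := by
    have h4 : s ^ (2 * a * T) ≤ 1 := pow_le_one₀ hs0 hs1
    have h5 : 0 ≤ ∑ w ∈ Good a (2 * a) T k q, X w := Finset.sum_nonneg fun w _ => hX0 w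
    linarith
  -- first part
  have hA : G * (1 - s ^ (2 * a * T)) ≤ ε := by
    have h4 : 1 - s ^ (2 * a * T) ≤ (2 * a * T : ℝ) * (1 - s) := by
      have h5 := one_add_mul_le_pow (a := s - 1) (by linarith) (2 * a * T)
      have h6 : (1 + (s - 1)) = s := by ring
      rw [h6] at h5
      push_cast at h5
      linarith
    have h5 := pow_mul_one_sub_le hs0 hs1 k
    have h6 : 0 ≤ 1 - s := by linarith
    have hk' : (0 : ℝ) < k := by exact_mod_cast hk
    have h7 : (0 : ℝ) ≤ 1 - s ^ (2 * a * T) := by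
      have := pow_le_one₀ (n := 2 * a * T) hs0 hs1
      linarith
    calc G * (1 - s ^ (2 * a * T)) ≤ s ^ k * ((2 * a * T : ℝ) * (1 - s)) := by gcongr
      _ = (2 * a * T : ℝ) * (s ^ k * (1 - s)) := by ring
      _ ≤ (ε * k) * (1 / (k + 1)) := by gcongr
      _ ≤ ε := by
          rw [mul_one_div, div_le_iff₀ (by positivity)]
          nlinarith
  -- second part
  have hB : G * bad ≤ 2 * ε := by
    rcases le_or_gt G (2 * ε) with h4 | h4
    · calc G * bad ≤ (2 * ε) * 1 := by gcongr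
        _ = 2 * ε := by ring
    · have h5 : 2 * ε ≤ ∏ i, (k * x i) := by
        rw [← norm_gm_sq h3]; exact h4.le
      have h6 := few_small x hx (by rw [← hs']; exact hs1) h5 hm
      have h7 : ∀ l : Fin (2 * a), (q : ℝ) / (4 * k) ≤ ∑ i ∈ Bl k q l, x i := by
        intro l
        refine block_mass x hx h6 hk ?_ hq
        calc (l.1 + 1) * q ≤ (2 * a) * q := Nat.mul_le_mul_right q l.2
          _ ≤ k := hqk
      have h8 := bad_le (T := T) ha x hx (by rw [← hs']; exact hs1) h7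
      have h9 : bad ≤ 2 * ε := by
        refine h8.trans ?_
        linarith
      calc G * bad ≤ 1 * (2 * ε) := by gcongr
        _ = 2 * ε := one_mul _
  calc G * (1 - SS a T k Z) ≤ G * (1 - (s ^ (2 * a * T) - bad)) := by gcongr
    _ = G * (1 - s ^ (2 * a * T)) + G * bad := by ring
    _ ≤ 3 * ε := by linarith

end Pool.Agent.Helper34K9.Cor
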