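import Pool.Agent.Helper34K9.Cor.Low

set_option autoImplicit false
set_option linter.unusedSectionVars false

open Set Function Module Matrix Metric
open scoped Real Topology

namespace Pool.Agent.Helper34K9.Cor

open Pool.Agent.H720R2

variable {a T k q : ℕ}

/-- the index set of the data -/
abbrev Idx (a T k : ℕ) : Type :=
  Option (Fin (finrank ℂ (LL (Pos (2 * a) T) k a)) × (Pos (2 * a) T → Fin k))

/-- the data on the ball of matrices -/
noncomputable def dat (c C₀ : ℝ) (a T k : ℕ) : Idx a T k → (Fin k → Fin k → ℂ) → ℂ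
  | none => fun Z => fA c (gm k Z) / C₀
  | some p => fun Z => fB c (gm k Z) * ff a T k p.1 p.2 Z / C₀

theorem differentiableOn_dat {c C₀ : ℝ} (hk : 0 < k) (o : Idx a T k) :
    DifferentiableOn ℂ (dat c C₀ a T k o) (MB k) := by
  have hgV : MapsTo (gm k) (MB k) (ball 0 1) := fun z hz => by
    rw [mem_ball_zero_iff]; exact norm_gm_lt_one hk hz
  have hgd : DifferentiableOn ℂ (gm k) (MB k) := differentiable_gm.differentiableOn
  cases o with
  | none =>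
    simp only [dat, div_eq_mul_inv]
    exact ((differentiableOn_fA c).comp hgd hgV).mul_const _
  | some p =>
    simp only [dat, div_eq_mul_inv]
    exact (((differentiableOn_fB c).comp hgd hgV).mul
      (differentiable_ff p.1 p.2).differentiableOn).mul_const _

theorem sum_dat {c C₀ Ch : ℝ} (hC₀ : 0 < C₀) (hC : C₀ ^ 2 = Ch) (Z : Fin k → Fin k → ℂ) :
    ∑ o, ‖dat c C₀ a T k o Z‖ ^ 2 =
      Ch⁻¹ * (‖fA c (gm k Z)‖ ^ 2 + ‖fB c (gm k Z)‖ ^ 2 * SS a T k Z) := by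
  rw [Fintype.sum_option, Fintype.sum_prod_type]
  simp only [dat]
  rw [mul_add, ← mul_assoc, SS, Finset.mul_sum, norm_div, div_pow, Complex.norm_real,
    Real.norm_of_nonneg hC₀.le, hC]
  congr 1
  · ring
  · refine Finset.sum_congr rfl fun β _ => ?_
    rw [Finset.mul_sum]
    refine Finset.sum_congr rfl fun v _ => ?_
    rw [norm_div, norm_mul, div_pow, mul_pow, Complex.norm_real, Real.norm_of_nonneg hC₀.le, hC]
    ring

/-- the result on the ball of matrices, for given parameters -/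
theorem mat_ball {δ c ε : ℝ} (hδ0 : 0 ≤ δ) (hδ : δ < 1) (hc : 0 < c)
    (hc2 : Real.cosh (2 * (c * π)) ≤ 2) (hcδ : (1 + δ ^ 2) / 2 < (Real.cosh (2 * (c * π)))⁻¹)
    (hε : ε = (1 - δ ^ 2) / 48) (hk : 0 < k) (ha : 0 < a) (hT : 0 < T) {m : ℕ}
    (hd : (2 * a * T : ℝ) ≤ ε * k) (hm : (0.9 : ℝ) ^ (m + 1) < 2 * ε) (hq : 2 * m ≤ q)
    (hqk : 2 * a * q ≤ k) (hexp : Real.exp (-(T * ((q : ℝ) / (4 * k)))) ≤ ε)
    {M : ℝ} (hM : ∃ i < a, 2 * M < ‖qseq (fA c) i‖) :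
    ∃ g : Idx a T k → (Fin k → Fin k → ℂ) → ℂ,
      (∀ o, DifferentiableOn ℂ (g o) (MB k)) ∧
      (∀ Z ∈ MB k, ∑ o, ‖g o Z‖ ^ 2 ≤ 1) ∧
      (∀ Z ∈ MB k, δ ^ 2 < ∑ o, ‖g o Z‖ ^ 2) ∧
      ∀ h : Idx a T k → (Fin k → Fin k → ℂ) → ℂ, (∀ o, DifferentiableOn ℂ (h o) (MB k)) →
        (∀ Z ∈ MB k, ∑ o, g o Z * h o Z = 1) → ∃ Z ∈ MB k, M < ‖h none Z‖ := by
  set Ch : ℝ := Real.cosh (2 * (c * π)) with hCh
  have hCh1 : 1 ≤ Ch := Real.one_le_cosh _
  have hCh0 : 0 < Ch := by linarith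
  set C₀ : ℝ := Real.sqrt Ch with hC₀
  have hC₀1 : 1 ≤ C₀ := by rw [hC₀]; exact Real.one_le_sqrt.2 hCh1
  have hC₀0 : 0 < C₀ := by linarith
  have hC₀2 : C₀ ^ 2 = Ch := Real.sq_sqrt hCh0.le
  have hδ2 : δ ^ 2 < 1 := by nlinarith
  have hε0 : 0 < ε := by rw [hε]; linarith
  refine ⟨dat c C₀ a T k, differentiableOn_dat hk, ?_, ?_, ?_⟩
  · intro Z hZ
    rw [sum_dat hC₀0 hC₀2]
    have hgz := norm_gm_lt_one hk hZ
    have hS1 : SS a T k Z ≤ 1 := SS_le_one hZ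
    have h2 := fAB_le hc.le hgz
    rw [inv_mul_le_iff₀ hCh0, mul_one]
    calc _ ≤ ‖fA c (gm k Z)‖ ^ 2 + ‖fB c (gm k Z)‖ ^ 2 * 1 := by gcongr
      _ ≤ Ch := by rw [mul_one]; exact h2
  · intro Z hZ
    rw [sum_dat hC₀0 hC₀2]
    set S : ℝ := SS a T k Z with hS
    have hgz := norm_gm_lt_one hk hZ
    have hest := main_est hk ha hT hε0 hd hm hq hqk hexp hZ
    rw [← hS] at hest
    have hS1 : S ≤ 1 := SS_le_one hZ
    have hBz : ‖fB c (gm k Z)‖ ≤ 2 * ‖gm k Z‖ := fB_le hc.le hc2 hgz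
    have hB2 : ‖fB c (gm k Z)‖ ^ 2 ≤ 4 * ‖gm k Z‖ ^ 2 := by
      calc ‖fB c (gm k Z)‖ ^ 2 ≤ (2 * ‖gm k Z‖) ^ 2 := by gcongr
        _ = _ := by ring
    have h1 : ‖fB c (gm k Z)‖ ^ 2 * (1 - S) ≤ 12 * ε := by
      calc ‖fB c (gm k Z)‖ ^ 2 * (1 - S) ≤ 4 * ‖gm k Z‖ ^ 2 * (1 - S) := by
            have : 0 ≤ 1 - S := by linarith
            gcongr
        _ = 4 * (‖gm k Z‖ ^ 2 * (1 - S)) := by ring
        _ ≤ 4 * (3 * ε) := by linarith
        _ = 12 * ε := by ring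
    have h2 := fAB_ge c (gm k Z)
    have h3 : 1 - 12 * ε ≤ ‖fA c (gm k Z)‖ ^ 2 + ‖fB c (gm k Z)‖ ^ 2 * S := by nlinarith
    have h4 : δ ^ 2 < (1 + δ ^ 2) / 2 * (1 - 12 * ε) := by
      rw [hε]; nlinarith
    have h5 : 0 < 1 - 12 * ε := by rw [hε]; nlinarith
    calc δ ^ 2 < (1 + δ ^ 2) / 2 * (1 - 12 * ε) := h4
      _ ≤ Ch⁻¹ * (1 - 12 * ε) := by gcongr
      _ ≤ _ := by gcongr
  · intro h hh heq
    obtain ⟨i, hi, hiM⟩ := hM
    obtain ⟨r, hr0, hr1, hr2⟩ := exists_r k hk i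
    refine core_lower (a := a) (T := T) (c := c) (C₀ := C₀) hk hi hC₀1 hiM hr0 hr1 hr2
      (h0 := h none) (h := fun β v => h (some (β, v))) (hh none) (fun β v => hh _) ?_
    intro Z hZ
    have h1 := heq Z hZ
    rw [Fintype.sum_option, Fintype.sum_prod_type] at h1
    exact h1

/-- restriction to the first `k ^ 2` coordinates -/
noncomputable def e0 {k n : ℕ} (h : k * k ≤ n) (p : Fin k × Fin k) : Fin n :=
  Fin.castLE h (finProdFinEquiv p)

theorem e0_inj {k n : ℕ} (h : k * k ≤ n) : Injective (e0 h) := fun _ _ hpp =>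
  finProdFinEquiv.injective (Fin.castLE_injective h hpp)

set_option maxHeartbeats 4000000 in
theorem main (δ : ℝ) (hδ0 : 0 < δ) (hδ : δ < 1) :
    ∃ c : ℝ, 0 < c ∧ ∃ n₀ : ℕ, ∀ n ≥ n₀, ∃ (N : ℕ) (f : Fin N → (Fin n → ℂ) → ℂ),
      (∀ j, DifferentiableOn ℂ (f j) (Bn n)) ∧
      (∀ z ∈ Bn n, ∑ j, ‖f j z‖ ^ 2 ≤ 1) ∧
      (∀ z ∈ Bn n, δ ^ 2 < ∑ j, ‖f j z‖ ^ 2) ∧
      ∀ h : Fin N → (Fin n → ℂ) → ℂ, (∀ j, DifferentiableOn ℂ (h j) (Bn n)) →
        (∀ z ∈ Bn n, ∑ j, f j z * h j z = 1) →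
        ∃ j, ∃ z ∈ Bn n, Real.exp (c * (n : ℝ) ^ (1 / 4 : ℝ)) < ‖h j z‖ := by
  obtain ⟨c, hc, hc2, hcδ⟩ := exists_c hδ0.le hδ
  have hδ2 : δ ^ 2 < 1 := by nlinarith
  set ε : ℝ := (1 - δ ^ 2) / 48 with hε
  have hε0 : 0 < ε := by rw [hε]; linarith
  have hε1 : ε < 1 := by rw [hε]; nlinarith
  -- growth of the coefficients
  obtain ⟨t₀, ht₀, hzero⟩ := exists_zero hc
  have hA0 : fA c 0 ≠ 0 := by rw [fA_zero]; exact one_ne_zero
  have hAK : ∀ t ∈ ball (0 : ℂ) 1, ‖fA c t‖ ≤ 2 := by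
    intro t ht
    rw [mem_ball_zero_iff] at ht
    have := fAB_le hc.le ht
    nlinarith [norm_nonneg (fA c t), sq_nonneg ‖fB c t‖]
  obtain ⟨R, c₂, hR1, hc₂, hlarge⟩ := exists_large (differentiableOn_fA c) hA0 hAK ht₀ hzero
  have hL : 0 < Real.log R := Real.log_pos hR1
  have hR0 : 0 < R := by linarith
  -- parameters
  obtain ⟨m, hm⟩ := exists_pow_lt_of_lt_one (show (0 : ℝ) < 2 * ε by linarith)
    (show (0.9 : ℝ) < 1 by norm_num)
  have hm' : (0.9 : ℝ) ^ (m + 1) < 2 * ε := by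
    rw [pow_succ]
    have : (0 : ℝ) < 0.9 ^ m := by positivity
    linarith
  set K : ℕ := ⌈8 * Real.log (1 / ε)⌉₊ + 1 with hK
  have hK0 : 0 < K := Nat.succ_pos _
  have hK1 : 8 * Real.log (1 / ε) ≤ K := by
    rw [hK]; push_cast
    have := Nat.le_ceil (8 * Real.log (1 / ε))
    linarith
  set J : ℕ := ⌈4 * K / ε⌉₊ + 4 * m + 4 with hJ
  have hJ1 : 4 * K / ε ≤ J := by
    rw [hJ]; push_cast
    have := Nat.le_ceil (4 * K / ε)
    have h2 : (0 : ℝ) ≤ m := Nat.cast_nonneg _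
    linarith
  have hJ2 : 4 * m ≤ J := by omega
  have hJ3 : 4 ≤ J := by omega
  have hJ0 : (0 : ℝ) < J := by
    have : 0 < J := by omega
    exact_mod_cast this
  have hsJ : 0 < Real.sqrt J := Real.sqrt_pos.2 hJ0
  set c' : ℝ := Real.log R / (4 * Real.sqrt J) with hc'
  have hc'0 : 0 < c' := by positivity
  refine ⟨c', hc'0, ?_⟩
  -- large n
  have hlim : Filter.Tendsto (fun n : ℕ => c' * (n : ℝ) ^ (1 / 4 : ℝ)) Filter.atTop Filter.atTop :=
    ((tendsto_rpow_atTop (by norm_num)).comp tendsto_natCast_atTop_atTop).const_mul_atTop hc'0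
  obtain ⟨n₁, hn₁⟩ := Filter.eventually_atTop.1
    (hlim.eventually_gt_atTop (Real.log (2 / c₂)))
  refine ⟨max n₁ (J * J), fun n hn => ?_⟩
  have hn1 := hn₁ n (le_trans (le_max_left _ _) hn)
  have hnJ : J * J ≤ n := le_trans (le_max_right _ _) hn
  set k : ℕ := Nat.sqrt n with hk
  have hkJ : J ≤ k := Nat.le_sqrt.2 hnJ
  have hkn : k * k ≤ n := Nat.sqrt_le n
  have hk0 : 0 < k := by omega
  have hk0' : (0 : ℝ) < k := by exact_mod_cast hk0
  set a : ℕ := Nat.sqrt (k / J) with ha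
  have hJpos : 0 < J := by omega
  have hkJ1 : 1 ≤ k / J := (Nat.one_le_div_iff hJpos).2 hkJ
  have ha0 : 0 < a := Nat.sqrt_pos.2 hkJ1
  have ha0' : (0 : ℝ) < a := by exact_mod_cast ha0
  have haa : J * (a * a) ≤ k := by
    have h1 : a * a ≤ k / J := Nat.sqrt_le _
    calc J * (a * a) ≤ J * (k / J) := Nat.mul_le_mul_left J h1
      _ ≤ k := Nat.mul_div_le k J
  have haar : (J : ℝ) * (a * a) ≤ k := by exact_mod_cast haa
  -- lower bound for `a`
  have hna : (n : ℝ) ^ (1 / 4 : ℝ) ≤ 2 * Real.sqrt J * a := by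
    have h1 : n < (k + 1) * (k + 1) := Nat.lt_succ_sqrt n
    have h2 : k / J < (a + 1) * (a + 1) := Nat.lt_succ_sqrt _
    have h3 : k < J * (k / J + 1) := Nat.lt_mul_div_succ k hJpos
    have h4 : k + 1 ≤ J * ((a + 1) * (a + 1)) := by
      calc k + 1 ≤ J * (k / J + 1) := h3
        _ ≤ J * ((a + 1) * (a + 1)) := Nat.mul_le_mul_left J h2
    have h5 : n ≤ (J * ((2 * a) * (2 * a))) * (J * ((2 * a) * (2 * a))) := by
      have h6 : J * ((a + 1) * (a + 1)) ≤ J * ((2 * a) * (2 * a)) :=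
        Nat.mul_le_mul_left J (Nat.mul_le_mul (by omega) (by omega))
      calc n ≤ (k + 1) * (k + 1) := h1.le
        _ ≤ _ := Nat.mul_le_mul (h4.trans h6) (h4.trans h6)
    have h6 : (n : ℝ) ≤ (2 * Real.sqrt J * a) ^ (4 : ℕ) := by
      have h7 : (n : ℝ) ≤ (J * ((2 * a) * (2 * a))) * (J * ((2 * a) * (2 * a))) := by
        exact_mod_cast h5
      have h8 : Real.sqrt J ^ 4 = (J : ℝ) ^ 2 := by
        rw [show (4 : ℕ) = 2 * 2 by norm_num, pow_mul, Real.sq_sqrt hJ0.le]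
      calc (n : ℝ) ≤ (J * ((2 * a) * (2 * a))) * (J * ((2 * a) * (2 * a))) := h7
        _ = 16 * (J : ℝ) ^ 2 * a ^ 4 := by ring
        _ = _ := by rw [mul_pow, mul_pow, h8]; ring
    calc (n : ℝ) ^ (1 / 4 : ℝ) ≤ ((2 * Real.sqrt J * a) ^ (4 : ℕ)) ^ (1 / 4 : ℝ) :=
          Real.rpow_le_rpow (Nat.cast_nonneg _) h6 (by norm_num)
      _ = 2 * Real.sqrt J * a := by
          rw [← Real.rpow_natCast, ← Real.rpow_mul (by positivity)]
          norm_num
  set T : ℕ := K * (2 * a) with hT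
  have hT0 : 0 < T := by positivity
  set q : ℕ := k / (2 * a) with hq
  have hd : (2 * a * T : ℝ) ≤ ε * k := by
    have h1 : (2 * a * T : ℝ) = 4 * K * (a * a) := by rw [hT]; push_cast; ring
    have h2 : 4 * K ≤ ε * J := by
      rw [div_le_iff₀ hε0] at hJ1; linarith
    rw [h1]
    calc (4 : ℝ) * K * (a * a) ≤ (ε * J) * (a * a) := by gcongr
      _ = ε * (J * (a * a)) := by ring
      _ ≤ ε * k := by gcongr
  have hq1 : 2 * m ≤ q := by
    rw [hq, Nat.le_div_iff_mul_le (by omega)]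
    calc 2 * m * (2 * a) = 4 * m * a := by ring
      _ ≤ J * a := Nat.mul_le_mul_right a hJ2
      _ ≤ J * (a * a) := Nat.mul_le_mul_left J (Nat.le_mul_of_pos_left a ha0)
      _ ≤ k := haa
  have hqk : 2 * a * q ≤ k := Nat.mul_div_le k (2 * a)
  have h4a : 4 * a ≤ k := by
    calc 4 * a ≤ J * a := Nat.mul_le_mul_right a hJ3
      _ ≤ J * (a * a) := Nat.mul_le_mul_left J (Nat.le_mul_of_pos_left a ha0)
      _ ≤ k := haa
  have hexp : Real.exp (-(T * ((q : ℝ) / (4 * k)))) ≤ ε := by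
    have h1 : (k : ℝ) ≤ 4 * a * q := by
      have h2 : k < 2 * a * (q + 1) := Nat.lt_mul_div_succ k (by omega)
      have h3 : k ≤ 4 * a * q := by
        have h5 : 1 ≤ q := by
          rw [hq]; exact (Nat.one_le_div_iff (by omega)).2 (by omega)
        nlinarith
      exact_mod_cast h3
    have h2 : (K : ℝ) / 8 ≤ T * ((q : ℝ) / (4 * k)) := by
      have h3 : (T : ℝ) = K * (2 * a) := by rw [hT]; push_cast; ring
      have h4 : (K : ℝ) * k ≤ K * (4 * a * q) := mul_le_mul_of_nonneg_left h1 (Nat.cast_nonneg _)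
      have h5 : (T : ℝ) * ((q : ℝ) / (4 * k)) = (K * (4 * a * q)) / (8 * k) := by
        rw [h3]; field_simp; ring
      rw [h5, le_div_iff₀ (by positivity)]
      calc (K : ℝ) / 8 * (8 * k) = K * k := by ring
        _ ≤ _ := h4
    have h3 : Real.log (1 / ε) ≤ T * ((q : ℝ) / (4 * k)) := by linarith
    rw [one_div, Real.log_inv] at h3
    calc Real.exp (-(T * ((q : ℝ) / (4 * k)))) ≤ Real.exp (Real.log ε) := by
          apply Real.exp_le_exp.2; linarith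
      _ = ε := Real.exp_log hε0
  set M : ℝ := Real.exp (c' * (n : ℝ) ^ (1 / 4 : ℝ)) with hM
  have hlargeM : ∃ i < a, 2 * M < ‖qseq (fA c) i‖ := by
    obtain ⟨i, hi, hqi⟩ := hlarge a ha0
    refine ⟨i, hi, lt_of_lt_of_le ?_ hqi⟩
    have h1 : R ^ a = Real.exp (a * Real.log R) := by
      rw [Real.exp_nat_mul, Real.exp_log hR0]
    have h2 : 2 * (c' * (n : ℝ) ^ (1 / 4 : ℝ)) ≤ a * Real.log R := by
      rw [hc']
      have h3 : 2 * (Real.log R / (4 * Real.sqrt J) * (n : ℝ) ^ (1 / 4 : ℝ)) =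
          Real.log R * ((n : ℝ) ^ (1 / 4 : ℝ) / (2 * Real.sqrt J)) := by
        field_simp
        ring
      rw [h3, mul_comm (a : ℝ)]
      gcongr
      rw [div_le_iff₀ (by positivity)]
      linarith
    have h3 : 2 / c₂ < M := by
      rw [hM, ← Real.exp_log (show (0 : ℝ) < 2 / c₂ by positivity)]
      exact Real.exp_lt_exp.2 hn1
    have h4 : M * M ≤ R ^ a := by
      rw [h1, hM, ← Real.exp_add]
      apply Real.exp_le_exp.2
      linarith
    have hM0 : 0 < M := Real.exp_pos _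
    rw [div_lt_iff₀ hc₂] at h3
    calc 2 * M < M * c₂ * M := by gcongr
      _ = c₂ * (M * M) := by ring
      _ ≤ c₂ * R ^ a := by gcongr
  obtain ⟨g, hg1, hg2, hg3, hg4⟩ := mat_ball hδ0.le hδ hc hc2 hcδ hε hk0 ha0 hT0 hd hm' hq1 hqk
    hexp hlargeM
  -- transfer to the ball of `ℂⁿ`
  set Zm : (Fin n → ℂ) → (Fin k → Fin k → ℂ) := fun z i j => z (e0 hkn (i, j)) with hZm
  have hZd : Differentiable ℂ Zm := by
    rw [differentiable_pi]
    intro i
    rw [differentiable_pi]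
    intro j
    rw [hZm]
    fun_prop
  have hZB : MapsTo Zm (Bn n) (MB k) := by
    intro z hz
    show hs (Zm z) < 1
    have h1 : hs (Zm z) = ∑ p : Fin k × Fin k, ‖z (e0 hkn p)‖ ^ 2 := by
      unfold hs
      rw [Fintype.sum_prod_type]
    have h2 : ∑ p : Fin k × Fin k, ‖z (e0 hkn p)‖ ^ 2 ≤ ∑ l, ‖z l‖ ^ 2 := by
      classical
      rw [← Finset.sum_image (f := fun l => ‖z l‖ ^ 2) (s := Finset.univ) (g := e0 hkn)
        (fun p _ p' _ h => e0_inj hkn h)]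
      exact Finset.sum_le_sum_of_subset_of_nonneg (Finset.subset_univ _) fun _ _ _ => by positivity
    rw [h1]
    exact lt_of_le_of_lt h2 hz
  set lift : (Fin k → Fin k → ℂ) → (Fin n → ℂ) := fun Z =>
    Function.extend (e0 hkn) (fun p => Z p.1 p.2) 0 with hlift
  have hlift1 : ∀ Z p, lift Z (e0 hkn p) = Z p.1 p.2 := fun Z p => by
    rw [hlift]; exact (e0_inj hkn).extend_apply _ _ _
  have hlift2 : ∀ Z l, (¬ ∃ p, e0 hkn p = l) → lift Z l = 0 := fun Z l hl => by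
    rw [hlift]
    dsimp only
    rw [Function.extend_apply' _ _ _ hl]
    rfl
  have hld : Differentiable ℂ lift := by
    rw [differentiable_pi]
    intro l
    by_cases hl : ∃ p, e0 hkn p = l
    · obtain ⟨p, rfl⟩ := hl
      simp only [hlift1]
      fun_prop
    · simp only [fun Z => hlift2 Z l hl]
      exact differentiable_const _
  have hlB : MapsTo lift (MB k) (Bn n) := by
    intro Z hZ
    classical
    show ∑ l, ‖lift Z l‖ ^ 2 < 1
    have h1 : ∑ l, ‖lift Z l‖ ^ 2 = ∑ l ∈ Finset.univ.image (e0 hkn), ‖lift Z l‖ ^ 2 := by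
      symm
      apply Finset.sum_subset (Finset.subset_univ _)
      intro l _ hl
      rw [hlift2 Z l (fun ⟨p, hp⟩ => hl (Finset.mem_image.2 ⟨p, Finset.mem_univ _, hp⟩))]
      simp
    rw [h1, Finset.sum_image (fun p _ p' _ h => e0_inj hkn h)]
    simp only [hlift1]
    have h2 : ∑ p : Fin k × Fin k, ‖Z p.1 p.2‖ ^ 2 = hs Z := by
      unfold hs
      rw [Fintype.sum_prod_type]
    rw [h2]
    exact hZ
  have hZl : ∀ Z, Zm (lift Z) = Z := by
    intro Z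
    funext i j
    exact hlift1 Z (i, j)
  let e := Fintype.equivFin (Idx a T k)
  refine ⟨Fintype.card (Idx a T k), fun j z => g (e.symm j) (Zm z), ?_, ?_, ?_, ?_⟩
  · intro j
    exact (hg1 (e.symm j)).comp hZd.differentiableOn hZB
  · intro z hz
    rw [Equiv.sum_comp e.symm (fun o => ‖g o (Zm z)‖ ^ 2)]
    exact hg2 _ (hZB hz)
  · intro z hz
    rw [Equiv.sum_comp e.symm (fun o => ‖g o (Zm z)‖ ^ 2)]
    exact hg3 _ (hZB hz)
  · intro h hh heq
    obtain ⟨Z, hZ, hMZ⟩ := hg4 (fun o Z => h (e o) (lift Z))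
      (fun o => (hh (e o)).comp hld.differentiableOn hlB) (by
        intro Z hZ
        have h1 := heq (lift Z) (hlB hZ)
        rw [← h1, ← Equiv.sum_comp e.symm (fun o => g o Z * h (e o) (lift Z))]
        refine Finset.sum_congr rfl fun j _ => ?_
        show _ = g (e.symm j) (Zm (lift Z)) * h j (lift Z)
        rw [hZl, Equiv.apply_symm_apply])
    exact ⟨e none, lift Z, hlB hZ, hMZ⟩

end Pool.Agent.Helper34K9.Cor
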