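import Mathlib

set_option autoImplicit false

open Complex Set Function Metric MeasureTheory Matrix
open scoped Real Topology

namespace Pool.Agent.Helper34K9.Cor

/-- the unitary group -/
abbrev UG (k : ℕ) : Type := Matrix.unitaryGroup (Fin k) ℂ

variable {k : ℕ}

instance instCompactUG : CompactSpace (UG k) := by
  have h1 : IsClosed (Matrix.unitaryGroup (Fin k) ℂ : Set (Matrix (Fin k) (Fin k) ℂ)) :=
    isClosed_unitary
  have h2 : IsCompact (Set.pi univ fun _ : Fin k => Set.pi univ fun _ : Fin k =>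
      closedBall (0 : ℂ) 1) :=
    isCompact_univ_pi fun _ => isCompact_univ_pi fun _ => isCompact_closedBall _ _
  have h3 : (Matrix.unitaryGroup (Fin k) ℂ : Set (Matrix (Fin k) (Fin k) ℂ)) ⊆
      (Set.pi univ fun _ : Fin k => Set.pi univ fun _ : Fin k => closedBall (0 : ℂ) 1) := by
    intro U hU i _ j _
    rw [mem_closedBall_zero_iff]
    exact entry_norm_bound_of_unitary hU i j
  exact isCompact_iff_compactSpace.1 (h2.of_isClosed_subset h1 h3)

instance instSecondUG : SecondCountableTopology (UG k) := by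
  have : SecondCountableTopology (Matrix (Fin k) (Fin k) ℂ) :=
    inferInstanceAs (SecondCountableTopology (Fin k → Fin k → ℂ))
  exact TopologicalSpace.Subtype.secondCountableTopology _

noncomputable instance instMeasUG : MeasurableSpace (UG k) := borel _
instance instBorelUG : BorelSpace (UG k) := ⟨rfl⟩

/-- the normalized Haar measure -/
noncomputable def mu (k : ℕ) : Measure (UG k) := Measure.haarMeasure ⊤

instance instProbMu : IsProbabilityMeasure (mu k) := by
  constructor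
  have := Measure.haarMeasure_self (G := UG k) (K₀ := ⊤)
  simpa [mu] using this

instance instLeftMu : (mu k).IsMulLeftInvariant := by
  unfold mu; infer_instance

theorem integral_left (F : UG k → ℂ) (W : UG k) : ∫ U, F (W * U) ∂(mu k) = ∫ U, F U ∂(mu k) :=
  integral_mul_left_eq_self F W

theorem norm_det (U : UG k) : ‖U.1.det‖ = 1 := by
  have h1 : U.1 * star U.1 = 1 := Unitary.coe_mul_star_self U
  have h2 := congrArg Matrix.det h1
  rw [Matrix.det_mul, Matrix.det_one, Matrix.star_eq_conjTranspose, Matrix.det_conjTranspose] at h2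
  have h3 := congrArg norm h2
  rw [norm_mul, norm_star, norm_one] at h3
  nlinarith [norm_nonneg U.1.det]

/-- scaled matrix, as an element of the normed space of `k × k` arrays -/
def sc (r : ℝ) (U : Matrix (Fin k) (Fin k) ℂ) : Fin k → Fin k → ℂ := fun i j => (r : ℂ) * U i j

/-- squared Hilbert-Schmidt norm -/
noncomputable def hs (Z : Fin k → Fin k → ℂ) : ℝ := ∑ i, ∑ j, ‖Z i j‖ ^ 2

/-- the unit ball -/
def MB (k : ℕ) : Set (Fin k → Fin k → ℂ) := {Z | hs Z < 1}

theorem continuous_hs : Continuous (hs : (Fin k → Fin k → ℂ) → ℝ) := by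
  unfold hs
  fun_prop

theorem isOpen_MB : IsOpen (MB k) := isOpen_lt continuous_hs continuous_const

theorem hs_eq_trace (A : Matrix (Fin k) (Fin k) ℂ) : ((hs A : ℝ) : ℂ) = (Aᴴ * A).trace := by
  unfold hs Matrix.trace
  push_cast
  rw [Finset.sum_comm]
  refine Finset.sum_congr rfl fun j _ => ?_
  rw [Matrix.diag_apply, Matrix.mul_apply]
  refine Finset.sum_congr rfl fun i _ => ?_
  rw [Matrix.conjTranspose_apply, Complex.star_def, ← Complex.normSq_eq_conj_mul_self,
    Complex.normSq_eq_norm_sq]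
  push_cast
  rfl

theorem hs_sc (r : ℝ) (A : Matrix (Fin k) (Fin k) ℂ) : hs (sc r A) = r ^ 2 * hs A := by
  unfold hs sc
  simp only [norm_mul, mul_pow, Complex.norm_real, Real.norm_eq_abs, sq_abs, Finset.mul_sum]

/-- the matrix scaling the direction `u` by `lam` -/
noncomputable def Wm (u : Fin k → ℂ) (lam : ℂ) : Matrix (Fin k) (Fin k) ℂ :=
  1 + (lam - 1) • Matrix.vecMulVec u (star u)

theorem conj_mul_Wm {u : Fin k → ℂ} (hu : star u ⬝ᵥ u = 1) (lam : ℂ) :
    (Wm u lam)ᴴ * Wm u lam = 1 + ((‖lam‖ ^ 2 - 1 : ℝ) : ℂ) • Matrix.vecMulVec u (star u) := by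
  unfold Wm
  have hP : Matrix.vecMulVec u (star u) * Matrix.vecMulVec u (star u) =
      Matrix.vecMulVec u (star u) := by
    rw [Matrix.vecMulVec_mul_vecMulVec, hu, one_smul]
  have hH : (Matrix.vecMulVec u (star u))ᴴ = Matrix.vecMulVec u (star u) := by
    rw [Matrix.conjTranspose_vecMulVec, star_star]
  rw [Matrix.conjTranspose_add, Matrix.conjTranspose_one, Matrix.conjTranspose_smul, hH, mul_add,
    add_mul, add_mul, one_mul, one_mul, mul_one, Matrix.smul_mul, Matrix.mul_smul, hP, smul_smul]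
  have e : ((‖lam‖ ^ 2 - 1 : ℝ) : ℂ) = star (lam - 1) + (lam - 1) + star (lam - 1) * (lam - 1) := by
    have h1 : ((‖lam‖ ^ 2 : ℝ) : ℂ) = star lam * lam := by
      rw [Complex.star_def, ← Complex.normSq_eq_conj_mul_self, Complex.normSq_eq_norm_sq]
    push_cast at h1 ⊢
    rw [h1, star_sub, star_one]
    ring
  rw [e, add_smul, add_smul]
  abel

theorem Wm_mem {u : Fin k → ℂ} (hu : star u ⬝ᵥ u = 1) {lam : ℂ} (hl : ‖lam‖ = 1) :
    Wm u lam ∈ Matrix.unitaryGroup (Fin k) ℂ := by
  rw [Matrix.mem_unitaryGroup_iff', Matrix.star_eq_conjTranspose, conj_mul_Wm hu, hl]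
  simp

theorem det_Wm {u : Fin k → ℂ} (hu : star u ⬝ᵥ u = 1) (lam : ℂ) : (Wm u lam).det = lam := by
  unfold Wm
  have : (lam - 1) • Matrix.vecMulVec u (star u) =
      Matrix.replicateCol Unit ((lam - 1) • u) * Matrix.replicateRow Unit (star u) := by
    rw [← Matrix.vecMulVec_eq, Matrix.smul_vecMulVec]
  rw [this, Matrix.det_one_add_replicateCol_mul_replicateRow, dotProduct_smul, hu]
  simp

theorem vecMul_Wm {u : Fin k → ℂ} (hu : star u ⬝ᵥ u = 1) (lam c : ℂ) :
    (c • star u) ᵥ* Wm u lam = lam • (c • star u) := by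
  unfold Wm
  rw [Matrix.vecMul_add, Matrix.vecMul_one, Matrix.vecMul_smul, Matrix.vecMul_vecMulVec,
    smul_dotProduct, hu]
  ext i
  simp
  ring

theorem trace_conj_Wm {u : Fin k → ℂ} (hu : star u ⬝ᵥ u = 1) (lam : ℂ) :
    ((Wm u lam)ᴴ * Wm u lam).trace = ((k + ‖lam‖ ^ 2 - 1 : ℝ) : ℂ) := by
  rw [conj_mul_Wm hu, Matrix.trace_add, Matrix.trace_one, Matrix.trace_smul, Matrix.trace_vecMulVec,
    dotProduct_comm, hu]
  simp
  ring

theorem hs_Wm_mul {u : Fin k → ℂ} (hu : star u ⬝ᵥ u = 1) (lam : ℂ) (U : UG k) :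
    hs (Wm u lam * U.1) = k + ‖lam‖ ^ 2 - 1 := by
  have h1 : ((hs (Wm u lam * U.1) : ℝ) : ℂ) = ((k + ‖lam‖ ^ 2 - 1 : ℝ) : ℂ) := by
    rw [hs_eq_trace, Matrix.conjTranspose_mul, Matrix.mul_assoc, Matrix.trace_mul_comm,
      Matrix.mul_assoc, Matrix.mul_assoc]
    have h2 : U.1 * (U.1)ᴴ = 1 := by
      exact Unitary.mul_star_self_of_mem U.2
    rw [h2, Matrix.mul_one, trace_conj_Wm hu]
  exact_mod_cast h1

theorem hs_unitary (U : UG k) : hs U.1 = k := by
  have h1 : ((hs U.1 : ℝ) : ℂ) = ((k : ℝ) : ℂ) := by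
    rw [hs_eq_trace]
    have h2 : (U.1)ᴴ * U.1 = 1 := by
      exact Unitary.star_mul_self_of_mem U.2
    rw [h2, Matrix.trace_one]
    simp
  exact_mod_cast h1

end Pool.Agent.Helper34K9.Cor
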