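import Pool.Agent.Helper34K9.Cor.Fam

set_option autoImplicit false
set_option linter.unusedSectionVars false

open Set Function Module Matrix Metric
open scoped Real Topology

namespace Pool.Agent.Helper34K9.Cor

open Pool.Agent.H720R2

variable {a T k q : ℕ}

theorem exists_dir {x : Fin k → ℂ} (hx : x ≠ 0) :
    ∃ (u : Fin k → ℂ) (c : ℂ), star u ⬝ᵥ u = 1 ∧ star x = c • star u := by
  set N2 : ℝ := ∑ l, ‖x l‖ ^ 2 with hN2
  have hpos : 0 < N2 := by
    obtain ⟨l, hl⟩ : ∃ l, x l ≠ 0 := by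
      by_contra hcon
      push Not at hcon
      exact hx (funext hcon)
    exact Finset.sum_pos' (fun _ _ => by positivity) ⟨l, Finset.mem_univ _, by positivity⟩
  have hN : 0 < Real.sqrt N2 := Real.sqrt_pos.2 hpos
  have hNc : ((Real.sqrt N2 : ℝ) : ℂ) ≠ 0 := by exact_mod_cast hN.ne'
  refine ⟨fun l => x l / (Real.sqrt N2 : ℝ), (Real.sqrt N2 : ℝ), ?_, ?_⟩
  · have h1 : ∀ l, star (x l / ((Real.sqrt N2 : ℝ) : ℂ)) * (x l / ((Real.sqrt N2 : ℝ) : ℂ)) =
        ((‖x l‖ ^ 2 / N2 : ℝ) : ℂ) := by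
      intro l
      rw [star_div₀, Complex.star_def, Complex.conj_ofReal, div_mul_div_comm,
        ← Complex.normSq_eq_conj_mul_self, Complex.normSq_eq_norm_sq, ← Complex.ofReal_mul,
        Real.mul_self_sqrt hpos.le, ← Complex.ofReal_div]
    show ∑ l, star (x l / ((Real.sqrt N2 : ℝ) : ℂ)) * (x l / ((Real.sqrt N2 : ℝ) : ℂ)) = 1
    rw [Finset.sum_congr rfl fun l _ => h1 l, ← Complex.ofReal_sum, ← Finset.sum_div, ← hN2,
      div_self hpos.ne', Complex.ofReal_one]
  · funext l
    show star (x l) = _ * star (x l / ((Real.sqrt N2 : ℝ) : ℂ))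
    rw [star_div₀, Complex.star_def, Complex.conj_ofReal]
    field_simp

/-- the functional kills the ideal generated by the data -/
theorem Lf_inner {P : Type} [Fintype P] [LinearOrder P] {r : ℝ} (hr : k * r ^ 2 < 1) {i : ℕ}
    (hi : i < a) {b : VV P k} (hb : b ∈ LL P k a) (v : P → Fin k)
    {H : (Fin k → Fin k → ℂ) → ℂ} (hH : DifferentiableOn ℂ H (MB k)) :
    Lf r i (fun Z => inner ℂ b (colT (Matrix.of Z) v) * H Z) = 0 := by
  classical
  have hc : ∀ b : VV P k, Continuous fun U : UG k =>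
      inner ℂ b (colT (Matrix.of (sc r U.1)) v) * H (sc r U.1) := fun b =>
    continuous_comp_sc hr (((differentiable_inner b v).continuous.continuousOn).mul hH.continuousOn)
  refine Submodule.span_induction
    (p := fun b _ => Lf r i (fun Z => inner ℂ b (colT (Matrix.of Z) v) * H Z) = 0)
    ?_ ?_ ?_ ?_ hb
  · rintro _ ⟨A, x, y, hA, hy, rfl⟩
    set G : (Fin k → Fin k → ℂ) → ℂ := fun Z => ∏ p ∈ A, ∑ l, star (x l) * Z l (v p) with hG
    set G' : (Fin k → Fin k → ℂ) → ℂ := fun Z => ∏ p ∈ Aᶜ, ∑ l, star (y p l) * Z l (v p) with hG'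
    have h1 : ∀ Z : Fin k → Fin k → ℂ, inner ℂ (tens y) (colT (Matrix.of Z) v) * H Z =
        G Z * (G' Z * H Z) := by
      intro Z
      unfold colT
      rw [inner_tens, ← Finset.prod_mul_prod_compl A, mul_assoc]
      congr 1
      rw [hG]
      refine Finset.prod_congr rfl fun p hp => ?_
      rw [hy p hp]
      rfl
    simp only [h1]
    have hlin : ∀ w : Fin k → ℂ, ∀ p : P, Differentiable ℂ fun Z : Fin k → Fin k → ℂ =>
        ∑ l, w l * Z l (v p) := by
      intro w p
      refine Differentiable.fun_sum fun l _ => ?_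
      have : Differentiable ℂ fun Z : Fin k → Fin k → ℂ => Z l (v p) := by fun_prop
      exact this.const_mul _
    have hprod : ∀ (S : Finset P) (w : P → Fin k → ℂ), Differentiable ℂ
        fun Z : Fin k → Fin k → ℂ => ∏ p ∈ S, ∑ l, w p l * Z l (v p) := by
      intro S w
      induction S using Finset.induction_on with
      | empty => simp
      | insert p s hp ih =>
        simp only [Finset.prod_insert hp]
        exact (hlin (w p) p).mul ih
    have hGd : Differentiable ℂ G := hprod A fun _ l => star (x l)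
    have hG'd : Differentiable ℂ G' := hprod Aᶜ fun p l => star (y p l)
    by_cases hx : x = 0
    · have h2 : ∀ Z, G Z = 0 := by
        intro Z
        have hne : A.Nonempty := by
          rw [← Finset.card_pos, hA]; omega
        obtain ⟨p, hp⟩ := hne
        rw [hG]
        apply Finset.prod_eq_zero hp
        simp [hx]
      simp only [h2, zero_mul]
      unfold Lf
      simp
    · obtain ⟨u, c, hu, hcu⟩ := exists_dir hx
      refine kill hr hu hi ?_ hGd.continuous (hG'd.differentiableOn.mul hH)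
      intro U lam
      have h2 : ∀ (B : Matrix (Fin k) (Fin k) ℂ) (p : P), ∑ l, star (x l) * sc r B l (v p) =
          (r : ℂ) * (star x ᵥ* B) (v p) := by
        intro B p
        unfold sc
        rw [Matrix.vecMul, dotProduct, Finset.mul_sum]
        refine Finset.sum_congr rfl fun l _ => ?_
        rw [Pi.star_apply]
        ring
      rw [hG]
      dsimp only
      simp only [h2]
      rw [← hA, ← Finset.prod_const, ← Finset.prod_mul_distrib]
      refine Finset.prod_congr rfl fun p _ => ?_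
      rw [← Matrix.vecMul_vecMul, hcu, vecMul_Wm hu, Matrix.smul_vecMul, Pi.smul_apply, smul_eq_mul]
      ring
  · simp only [inner_zero_left, zero_mul]
    unfold Lf
    simp
  · intro b b' _ _ h1 h2
    simp only [inner_add_left, add_mul]
    rw [Lf_add i (hc b) (hc b'), h1, h2, add_zero]
  · intro c b _ h1
    simp only [inner_smul_left, mul_assoc]
    rw [Lf_const_mul, h1, mul_zero]

theorem Lf_ff {r : ℝ} (hr : k * r ^ 2 < 1) {i : ℕ} (hi : i < a)
    (β : Fin (finrank ℂ (LL (Pos (2 * a) T) k a))) (v : Pos (2 * a) T → Fin k)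
    {H : (Fin k → Fin k → ℂ) → ℂ} (hH : DifferentiableOn ℂ H (MB k)) :
    Lf r i (fun Z => ff a T k β v Z * H Z) = 0 :=
  Lf_inner hr hi (bb_mem _ β) v hH

theorem differentiable_det : Differentiable ℂ fun Z : Fin k → Fin k → ℂ => (Matrix.of Z).det := by
  simp only [Matrix.det_apply]
  refine Differentiable.fun_sum fun σ _ => ?_
  refine Differentiable.const_smul ?_ _
  have h1 : ∀ i j : Fin k, Differentiable ℂ fun Z : Fin k → Fin k → ℂ => Z i j := by
    intro i j; fun_prop
  generalize (Finset.univ : Finset (Fin k)) = s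
  induction s using Finset.induction_on with
  | empty => simp
  | insert p s hp ih =>
    simp only [Finset.prod_insert hp]
    exact (h1 (σ p) p).mul ih

theorem differentiable_gm : Differentiable ℂ (gm k) := differentiable_det.const_mul _

theorem Lf_gm_pow {r : ℝ} (hr : k * r ^ 2 < 1) (hk : 0 < k) {i j : ℕ} (hij : i < j)
    {H : (Fin k → Fin k → ℂ) → ℂ} (hH : DifferentiableOn ℂ H (MB k)) :
    Lf r i (fun Z => gm k Z ^ j * H Z) = 0 := by
  obtain ⟨u, hu⟩ := exists_unit hk
  refine kill hr hu hij ?_ (differentiable_gm.continuous.pow j) hH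
  intro U lam
  unfold gm
  rw [det_sc, det_sc, Matrix.det_mul, det_Wm hu, ← mul_pow]
  congr 1
  ring

theorem Lf_poly {r : ℝ} (hr : k * r ^ 2 < 1) (hk : 0 < k) (c : ℕ → ℂ) (i : ℕ) :
    Lf r i (fun Z : Fin k → Fin k → ℂ => ∑ j ∈ Finset.range (i + 1), c j * gm k Z ^ j) =
      c i * (((Real.sqrt k ^ k * r ^ k : ℝ) : ℂ)) ^ i := by
  have hcont : ∀ j, Continuous fun U : UG k => c j * gm k (sc r U.1) ^ j := fun j =>
    continuous_comp_sc hr (((differentiable_gm.pow j).const_mul (c j)).continuous.continuousOn)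
  rw [Lf_sum i (Finset.range (i + 1)) (F := fun j Z => c j * gm k Z ^ j) fun j _ => hcont j]
  have h1 : ∀ j, Lf r i (fun Z : Fin k → Fin k → ℂ => c j * gm k Z ^ j) =
      c j * (((Real.sqrt k ^ k : ℝ) : ℂ) ^ j *
        Lf r i (fun Z : Fin k → Fin k → ℂ => (Matrix.of Z).det ^ j)) := by
    intro j
    rw [Lf_const_mul]
    congr 1
    rw [← Lf_const_mul]
    congr 1
    funext Z
    rw [gm, mul_pow]
  simp only [h1]
  rw [Finset.sum_eq_single i]
  · rw [Lf_det_self]
    push_cast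
    ring
  · intro j _ hji
    rw [Lf_det_ne r hk hji, mul_zero, mul_zero]
  · intro h; simp at h

/-- **the lower bound for the solutions** -/
theorem core_lower {c : ℝ} (hk : 0 < k) {i : ℕ} (hi : i < a) {C₀ M : ℝ} (hC₀ : 1 ≤ C₀)
    (hq : 2 * M < ‖qseq (fA c) i‖) {r : ℝ} (hr0 : 0 < r) (hr : k * r ^ 2 < 1)
    (hr2 : 1 / 2 ≤ (Real.sqrt k ^ k * r ^ k) ^ i)
    {h0 : (Fin k → Fin k → ℂ) → ℂ}
    {h : Fin (finrank ℂ (LL (Pos (2 * a) T) k a)) → (Pos (2 * a) T → Fin k) →
      (Fin k → Fin k → ℂ) → ℂ}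
    (hh0 : DifferentiableOn ℂ h0 (MB k)) (hh : ∀ β v, DifferentiableOn ℂ (h β v) (MB k))
    (heq : ∀ Z ∈ MB k, fA c (gm k Z) / C₀ * h0 Z + ∑ β, ∑ v,
        (fB c (gm k Z) * ff a T k β v Z / C₀) * h β v Z = 1) :
    ∃ Z ∈ MB k, M < ‖h0 Z‖ := by
  by_contra hcon
  push Not at hcon
  have hC₀0 : 0 < C₀ := by linarith
  have hC₀c : (C₀ : ℂ) ≠ 0 := by exact_mod_cast hC₀0.ne'
  have hgV : MapsTo (gm k) (MB k) (ball 0 1) := fun z hz => by
    rw [mem_ball_zero_iff]; exact norm_gm_lt_one hk hz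
  have hgd : DifferentiableOn ℂ (gm k) (MB k) := differentiable_gm.differentiableOn
  have hBV : DifferentiableOn ℂ (fun z => fB c (gm k z)) (MB k) :=
    (differentiableOn_fB c).comp hgd hgV
  have hRV : DifferentiableOn ℂ (fun z => Rseq (fA c) (i + 1) (gm k z)) (MB k) :=
    (differentiableOn_Rseq (differentiableOn_fA c) (i + 1)).comp hgd hgV
  set Q : (Fin k → Fin k → ℂ) → ℂ := fun z =>
    ∑ j ∈ Finset.range (i + 1), qseq (fA c) j * gm k z ^ j with hQ
  have hQd : DifferentiableOn ℂ Q (MB k) := by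
    have : Differentiable ℂ Q := by
      rw [hQ]
      exact Differentiable.fun_sum fun j _ => (differentiable_gm.pow j).const_mul _
    exact this.differentiableOn
  have hA0 : fA c 0 ≠ 0 := by rw [fA_zero]; exact one_ne_zero
  have hAQ : ∀ z, fA c (gm k z) * Q z = 1 + gm k z ^ (i + 1) * Rseq (fA c) (i + 1) (gm k z) :=
    fun z => trunc_eq hA0 (i + 1) (gm k z)
  -- the identity
  have hid : ∀ z ∈ MB k, h0 z + (gm k z ^ (i + 1) * (Rseq (fA c) (i + 1) (gm k z) * h0 z) +
      ∑ β, ∑ v, ff a T k β v z * (Q z * fB c (gm k z) * h β v z)) = (C₀ : ℂ) * Q z := by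
    intro z hz
    have e1 := heq z hz
    have e2 : (C₀ : ℂ) * (Q z * (fA c (gm k z) / C₀ * h0 z)) = fA c (gm k z) * Q z * h0 z := by
      field_simp
    have e3 : (C₀ : ℂ) * (Q z * (∑ β, ∑ v, (fB c (gm k z) * ff a T k β v z / C₀) * h β v z)) =
        ∑ β, ∑ v, ff a T k β v z * (Q z * fB c (gm k z) * h β v z) := by
      rw [Finset.mul_sum, Finset.mul_sum]
      refine Finset.sum_congr rfl fun β _ => ?_
      rw [Finset.mul_sum, Finset.mul_sum]
      refine Finset.sum_congr rfl fun v _ => ?_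
      field_simp
    have e4 : (C₀ : ℂ) * Q z = (C₀ : ℂ) * (Q z * (fA c (gm k z) / C₀ * h0 z)) +
        (C₀ : ℂ) * (Q z * (∑ β, ∑ v, (fB c (gm k z) * ff a T k β v z / C₀) * h β v z)) := by
      rw [← mul_add, ← mul_add, e1, mul_one]
    rw [e4, e2, e3, hAQ]
    ring
  -- apply the functional
  have c0 := continuous_comp_sc hr hh0.continuousOn
  have L1 : Lf r i (fun z => gm k z ^ (i + 1) * (Rseq (fA c) (i + 1) (gm k z) * h0 z)) = 0 :=
    Lf_gm_pow hr hk (Nat.lt_succ_self i) (hRV.mul hh0)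
  have hHd : ∀ β v, DifferentiableOn ℂ (fun z => Q z * fB c (gm k z) * h β v z) (MB k) :=
    fun β v => (hQd.mul hBV).mul (hh β v)
  have L2 : ∀ β v, Lf r i (fun z => ff a T k β v z * (Q z * fB c (gm k z) * h β v z)) = 0 :=
    fun β v => Lf_ff hr hi β v (hHd β v)
  have cf : ∀ β v, Continuous fun U : UG k => ff a T k β v (sc r U.1) *
      (Q (sc r U.1) * fB c (gm k (sc r U.1)) * h β v (sc r U.1)) := fun β v =>
    continuous_comp_sc hr ((differentiable_ff β v).continuous.continuousOn.mul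
      (hHd β v).continuousOn)
  have c1 : Continuous fun U : UG k => gm k (sc r U.1) ^ (i + 1) *
      (Rseq (fA c) (i + 1) (gm k (sc r U.1)) * h0 (sc r U.1)) :=
    continuous_comp_sc hr ((differentiable_gm.continuous.pow _).continuousOn.mul
      (hRV.mul hh0).continuousOn)
  have c2 : Continuous fun U : UG k => ∑ β, ∑ v, ff a T k β v (sc r U.1) *
      (Q (sc r U.1) * fB c (gm k (sc r U.1)) * h β v (sc r U.1)) :=
    continuous_finsetSum _ fun β _ => continuous_finsetSum _ fun v _ => cf β v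
  have L3 : Lf r i (fun z => h0 z + (gm k z ^ (i + 1) * (Rseq (fA c) (i + 1) (gm k z) * h0 z) +
      ∑ β, ∑ v, ff a T k β v z * (Q z * fB c (gm k z) * h β v z))) = Lf r i h0 := by
    rw [Lf_add i (F := h0) (G := fun z => gm k z ^ (i + 1) *
        (Rseq (fA c) (i + 1) (gm k z) * h0 z) +
      ∑ β, ∑ v, ff a T k β v z * (Q z * fB c (gm k z) * h β v z)) c0 (c1.add c2),
      Lf_add i (F := fun z => gm k z ^ (i + 1) * (Rseq (fA c) (i + 1) (gm k z) * h0 z))
        (G := fun z => ∑ β, ∑ v, ff a T k β v z * (Q z * fB c (gm k z) * h β v z)) c1 c2, L1,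
      Lf_sum i _ (F := fun β z => ∑ v, ff a T k β v z * (Q z * fB c (gm k z) * h β v z))
        (fun β _ => continuous_finsetSum _ fun v _ => cf β v)]
    have h4 : ∀ β, Lf r i (fun z => ∑ v, ff a T k β v z * (Q z * fB c (gm k z) * h β v z)) = 0 := by
      intro β
      rw [Lf_sum i _ (F := fun v z => ff a T k β v z * (Q z * fB c (gm k z) * h β v z))
        (fun v _ => cf β v)]
      exact Finset.sum_eq_zero fun v _ => L2 β v
    rw [Finset.sum_eq_zero fun β _ => h4 β]
    simp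
  have L4 : Lf r i h0 = (C₀ : ℂ) * (qseq (fA c) i * ((Real.sqrt k ^ k * r ^ k : ℝ) : ℂ) ^ i) := by
    rw [← L3, Lf_congr i (G := fun z => (C₀ : ℂ) * Q z) fun U => hid _ (mem_sc hr U),
      Lf_const_mul, hQ, Lf_poly hr hk]
  have B1 : ‖Lf r i h0‖ ≤ M := Lf_bound i fun U => hcon _ (mem_sc hr U)
  have hγ : 0 ≤ Real.sqrt k ^ k * r ^ k := by positivity
  rw [L4, norm_mul, norm_mul, norm_pow, Complex.norm_real, Complex.norm_real,
    Real.norm_of_nonneg hC₀0.le, Real.norm_of_nonneg hγ] at B1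
  have B2 : ‖qseq (fA c) i‖ * (1 / 2) ≤
      C₀ * (‖qseq (fA c) i‖ * (Real.sqrt k ^ k * r ^ k) ^ i) := by
    calc ‖qseq (fA c) i‖ * (1 / 2) ≤ ‖qseq (fA c) i‖ * (Real.sqrt k ^ k * r ^ k) ^ i := by gcongr
      _ = 1 * (‖qseq (fA c) i‖ * (Real.sqrt k ^ k * r ^ k) ^ i) := (one_mul _).symm
      _ ≤ _ := by gcongr
  linarith

end Pool.Agent.Helper34K9.Cor
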