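import Mathlib

set_option autoImplicit false

open Set Function

namespace Pool.Agent.Helper34K9.Cor

variable {P : Type} [Fintype P] [LinearOrder P] {k : ℕ}

/-- the number of occurrences of the letters at the positions in `A` -/
noncomputable def cnt (A : Finset P) (w : P → Fin k) : Fin k →₀ ℕ := ∑ p ∈ A, Finsupp.single (w p) 1

/-- the rearrangements of `w` at the positions in `A` -/
noncomputable def Orb (A : Finset P) (w : P → Fin k) : Finset (P → Fin k) :=
  (Fintype.piFinset fun p => if p ∈ A then Finset.univ else {w p}).filter fun u => cnt A u = cnt A w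

theorem mem_Orb {A : Finset P} {w u : P → Fin k} :
    u ∈ Orb A w ↔ (∀ p ∉ A, u p = w p) ∧ cnt A u = cnt A w := by
  unfold Orb
  rw [Finset.mem_filter, Fintype.mem_piFinset]
  constructor
  · rintro ⟨h1, h2⟩
    refine ⟨fun p hp => ?_, h2⟩
    have := h1 p
    rw [if_neg hp] at this
    simpa using this
  · rintro ⟨h1, h2⟩
    refine ⟨fun p => ?_, h2⟩
    split_ifs with hp
    · exact Finset.mem_univ _
    · rw [Finset.mem_singleton]; exact h1 p hp

theorem self_mem_Orb (A : Finset P) (w : P → Fin k) : w ∈ Orb A w :=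
  mem_Orb.2 ⟨fun _ _ => rfl, rfl⟩

theorem toMultiset_cnt (A : Finset P) (w : P → Fin k) :
    Finsupp.toMultiset (cnt A w) = A.val.map w := by
  unfold cnt
  rw [map_sum]
  simp only [Finsupp.toMultiset_single, one_smul]
  induction A using Finset.induction_on with
  | empty => simp
  | insert a A ha ih =>
    rw [Finset.sum_insert ha, ih, Finset.insert_val_of_notMem ha, Multiset.map_cons,
      Multiset.singleton_add]

theorem map_eq_of_cnt {A : Finset P} {w u : P → Fin k} (h : cnt A u = cnt A w) :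
    A.val.map u = A.val.map w := by
  rw [← toMultiset_cnt, ← toMultiset_cnt, h]

theorem eqOn_of_monotoneOn {A : Finset P} {w u : P → Fin k} (hw : MonotoneOn w A)
    (hu : MonotoneOn u A) (h : cnt A u = cnt A w) : ∀ p ∈ A, u p = w p := by
  set l := A.sort (· ≤ ·) with hl
  have hmem : ∀ p, p ∈ l ↔ p ∈ A := fun p => Finset.mem_sort _
  have hpair : l.Pairwise (· ≤ ·) := Finset.pairwise_sort A _
  have hval : ((l : List P) : Multiset P) = A.val := Finset.sort_eq A _
  have hs : ∀ f : P → Fin k, MonotoneOn f A → (l.map f).Pairwise (· ≤ ·) := by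
    intro f hf
    rw [List.pairwise_map]
    refine hpair.imp_of_mem ?_
    intro a b ha hb hab
    exact hf (Finset.mem_coe.2 ((hmem a).1 ha)) (Finset.mem_coe.2 ((hmem b).1 hb)) hab
  have hperm : (l.map u).Perm (l.map w) := by
    rw [← Multiset.coe_eq_coe, ← Multiset.map_coe, ← Multiset.map_coe, hval]
    exact map_eq_of_cnt h
  have heq := List.Perm.eq_of_pairwise (le := (· ≤ ·)) (fun a b _ _ h1 h2 => le_antisymm h1 h2)
    (hs u hu) (hs w hw) hperm
  rw [List.map_inj_left] at heq
  intro p hp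
  exact heq p ((hmem p).2 hp)

theorem swap_mem_Orb {A : Finset P} {w u : P → Fin k} (hu : u ∈ Orb A w) {p q : P} (hp : p ∈ A)
    (hq : q ∈ A) : u ∘ Equiv.swap p q ∈ Orb A w := by
  rw [mem_Orb] at hu ⊢
  refine ⟨fun r hr => ?_, ?_⟩
  · have h1 : r ≠ p := fun h => hr (h ▸ hp)
    have h2 : r ≠ q := fun h => hr (h ▸ hq)
    rw [comp_apply, Equiv.swap_apply_of_ne_of_ne h1 h2]
    exact hu.1 r hr
  · rw [← hu.2]
    unfold cnt
    refine Finset.sum_equiv (Equiv.swap p q) ?_ (fun r _ => rfl)
    intro r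
    rcases eq_or_ne r p with rfl | h1
    · rw [Equiv.swap_apply_left]; exact iff_of_true hp hq
    rcases eq_or_ne r q with rfl | h2
    · rw [Equiv.swap_apply_right]; exact iff_of_true hq hp
    rw [Equiv.swap_apply_of_ne_of_ne h1 h2]

/-- a word which is weakly increasing on `A` is the least of its rearrangements on `A` -/
theorem toLex_le_of_mem_Orb {A : Finset P} {w u : P → Fin k} (hw : MonotoneOn w A)
    (hu : u ∈ Orb A w) : toLex w ≤ toLex u := by
  obtain ⟨m, hm, hmin⟩ := Finset.exists_min_image (Orb A w) (fun u => toLex u)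
    ⟨w, self_mem_Orb A w⟩
  have hmono : MonotoneOn m A := by
    intro p hp q hq hpq
    by_contra hcon
    push Not at hcon
    have h1 := hmin _ (swap_mem_Orb hm (Finset.mem_coe.1 hp) (Finset.mem_coe.1 hq))
    have h2 := Pi.lex_desc hpq hcon
    exact absurd h2 (not_lt.2 h1)
  have hm' := mem_Orb.1 hm
  have h1 := eqOn_of_monotoneOn hw hmono hm'.2
  have h2 : m = w := by
    funext p
    by_cases hp : p ∈ A
    · exact h1 p hp
    · exact hm'.1 p hp
  rw [← h2]
  exact hmin u hu

theorem prod_eq_of_mem_Orb {A : Finset P} {w u : P → Fin k} (hu : u ∈ Orb A w) (x : Fin k → ℝ) :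
    ∏ p, x (u p) = ∏ p, x (w p) := by
  have hu' := mem_Orb.1 hu
  have h1 : ∀ f : P → Fin k, ∏ p, x (f p) = (∏ p ∈ A, x (f p)) * ∏ p ∈ Aᶜ, x (f p) := fun f =>
    (Finset.prod_mul_prod_compl A _).symm
  have h2 : ∀ f : P → Fin k, ∏ p ∈ A, x (f p) = ((A.val.map f).map x).prod := by
    intro f
    rw [Multiset.map_map]
    rfl
  rw [h1 u, h1 w, h2 u, h2 w, map_eq_of_cnt hu'.2]
  congr 1
  refine Finset.prod_congr rfl fun p hp => ?_
  rw [hu'.1 p (Finset.mem_compl.1 hp)]

end Pool.Agent.Helper34K9.Cor
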