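import Pool.Agent.Helper34K9.Cor.Tens

set_option autoImplicit false
set_option linter.unusedSectionVars false

open Set Function Module Matrix
open scoped ComplexOrder

namespace Pool.Agent.Helper34K9.Cor

variable {P : Type} [Fintype P] [LinearOrder P] {k : ℕ}

theorem sum_good_le [NeZero k] (W : UG k) (x : Fin k → ℝ) (hx : ∀ i, 0 ≤ x i) (a : ℕ)
    (good : Finset (P → Fin k))
    (hgood : ∀ w ∈ good, ∃ A : Finset P, A.card = a ∧ MonotoneOn w A) :
    ∑ w ∈ good, ∏ p, x (w p) ≤ ∑ u : P → Fin k, (∏ p, x (u p)) * QQ (LL P k a) (eW W u) := by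
  classical
  choose! A hA1 hA2 using hgood
  have h := trace_ge (bW (P := P) W) (LL P k a) (fun w => ∏ p, x (w p))
    (fun w => Finset.prod_nonneg fun p _ => hx _) (fun w => toLex w) toLex.injective good
    (fun w => Orb (A w) w) (fun w _ => self_mem_Orb _ w)
    (fun w hw u hu => ⟨prod_eq_of_mem_Orb hu x, toLex_le_of_mem_Orb (hA2 w hw) hu⟩)
    (fun w hw => by
      simp only [bW_apply]
      exact orb_mem W (hA1 w hw) w)
  simpa only [bW_apply] using h

/-- tensors built from the columns of a matrix -/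
noncomputable def colT (B : Matrix (Fin k) (Fin k) ℂ) (v : P → Fin k) : VV P k :=
  tens fun p l => B l (v p)

theorem kernel (B : Matrix (Fin k) (Fin k) ℂ) (x : Fin k → ℝ) (b : VV P k) :
    ((∑ u : P → Fin k, (∏ p, x (u p)) * ‖inner ℂ b (colT B u)‖ ^ 2 : ℝ) : ℂ) =
      ∑ w : P → Fin k, ∑ w' : P → Fin k, star (b w) * b w' *
        ∏ p, (B * Matrix.diagonal (fun l => (x l : ℂ)) * Bᴴ) (w p) (w' p) := by
  classical
  have h1 : ∀ w w' : P → Fin k, ∏ p, (B * Matrix.diagonal (fun l => (x l : ℂ)) * Bᴴ) (w p) (w' p) =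
      ∑ u : P → Fin k, ∏ p, ((x (u p) : ℂ) * (B (w p) (u p) * star (B (w' p) (u p)))) := by
    intro w w'
    have h2 := Finset.prod_univ_sum (fun _ : P => (Finset.univ : Finset (Fin k)))
      (fun p l => (x l : ℂ) * (B (w p) l * star (B (w' p) l)))
    rw [Fintype.piFinset_univ] at h2
    rw [← h2]
    refine Finset.prod_congr rfl fun p _ => ?_
    rw [Matrix.mul_apply]
    refine Finset.sum_congr rfl fun l _ => ?_
    rw [Matrix.mul_diagonal, Matrix.conjTranspose_apply]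
    ring
  have h2 : ∀ u : P → Fin k, ((‖inner ℂ b (colT B u)‖ ^ 2 : ℝ) : ℂ) =
      ∑ w : P → Fin k, ∑ w' : P → Fin k, star (b w) * b w' *
        ∏ p, (B (w p) (u p) * star (B (w' p) (u p))) := by
    intro u
    have e1 : ((‖inner ℂ b (colT B u)‖ ^ 2 : ℝ) : ℂ) =
        inner ℂ b (colT B u) * star (inner ℂ b (colT B u)) := by
      rw [Complex.star_def, Complex.mul_conj, Complex.normSq_eq_norm_sq]
    have e2 : inner ℂ b (colT B u) = ∑ w : P → Fin k, star (b w) * ∏ p, B (w p) (u p) := by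
      rw [PiLp.inner_apply]
      refine Finset.sum_congr rfl fun w _ => ?_
      unfold colT
      rw [tens_apply]
      simp [mul_comm]
    rw [e1, e2, star_sum, Finset.sum_mul_sum]
    refine Finset.sum_congr rfl fun w _ => Finset.sum_congr rfl fun w' _ => ?_
    rw [Finset.prod_mul_distrib, star_mul', star_star, star_prod]
    ring
  push_cast at h2 ⊢
  simp only [h2, h1, Finset.mul_sum]
  rw [Finset.sum_comm]
  refine Finset.sum_congr rfl fun w _ => ?_
  rw [Finset.sum_comm]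
  refine Finset.sum_congr rfl fun w' _ => ?_
  refine Finset.sum_congr rfl fun u _ => ?_
  rw [Finset.prod_mul_distrib (f := fun p => (x (u p) : ℂ))]
  ring

theorem sum_colT_eq {B W : Matrix (Fin k) (Fin k) ℂ} {x : Fin k → ℝ}
    (h : B * Bᴴ = W * Matrix.diagonal (fun l => (x l : ℂ)) * Wᴴ) (b : VV P k) :
    ∑ v : P → Fin k, ‖inner ℂ b (colT B v)‖ ^ 2 =
      ∑ u : P → Fin k, (∏ p, x (u p)) * ‖inner ℂ b (colT W u)‖ ^ 2 := by
  have h1 := kernel B (fun _ => 1) b
  have h2 := kernel W x b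
  have e : B * Matrix.diagonal (fun _ : Fin k => ((1 : ℝ) : ℂ)) * Bᴴ = B * Bᴴ := by
    simp
  rw [e, h, ← h2] at h1
  have h3 : (∑ v : P → Fin k, (∏ _p : P, (1 : ℝ)) * ‖inner ℂ b (colT B v)‖ ^ 2) =
      ∑ u : P → Fin k, (∏ p, x (u p)) * ‖inner ℂ b (colT W u)‖ ^ 2 := by
    exact_mod_cast h1
  simpa using h3

theorem exists_spec (Z : Matrix (Fin k) (Fin k) ℂ) : ∃ (W : UG k) (x : Fin k → ℝ),
    (∀ i, 0 ≤ x i) ∧ Z * Zᴴ = W.1 * Matrix.diagonal (fun l => (x l : ℂ)) * (W.1)ᴴ ∧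
    ∑ i, x i = hs Z ∧ ∏ i, x i = ‖Z.det‖ ^ 2 := by
  have hpos := Matrix.posSemidef_self_mul_conjTranspose Z
  set hH := hpos.isHermitian
  refine ⟨hH.eigenvectorUnitary, hH.eigenvalues, fun i => hpos.eigenvalues_nonneg i, ?_, ?_, ?_⟩
  · have h1 := hH.spectral_theorem
    rw [Unitary.conjStarAlgAut_apply] at h1
    exact h1
  · have h1 := hH.trace_eq_sum_eigenvalues
    have h2 : (Z * Zᴴ).trace = ((hs Z : ℝ) : ℂ) := by
      rw [hs_eq_trace, Matrix.trace_mul_comm]
    rw [h2] at h1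
    have h3 : ((hs Z : ℝ) : ℂ) = ((∑ i, hH.eigenvalues i : ℝ) : ℂ) := by
      rw [h1]; push_cast; rfl
    exact_mod_cast h3.symm
  · have h1 := hH.det_eq_prod_eigenvalues
    rw [Matrix.det_mul, Matrix.det_conjTranspose] at h1
    have h2 : ((‖Z.det‖ ^ 2 : ℝ) : ℂ) = ((∏ i, hH.eigenvalues i : ℝ) : ℂ) := by
      rw [← Complex.normSq_eq_norm_sq, ← Complex.mul_conj]
      have : (starRingEnd ℂ) Z.det = star Z.det := rfl
      rw [this, h1]; push_cast; rfl
    exact_mod_cast h2.symm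

end Pool.Agent.Helper34K9.Cor
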