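import Mathlib

set_option autoImplicit false

open Set Function Module
open scoped Topology

namespace Pool.Agent.Helper34K9.Cor

variable {V : Type*} [NormedAddCommGroup V] [InnerProductSpace ℂ V] [FiniteDimensional ℂ V]

/-- an orthonormal basis of a subspace, as a family in the whole space -/
noncomputable def bb (L : Submodule ℂ V) (β : Fin (finrank ℂ L)) : V :=
  (stdOrthonormalBasis ℂ L β : V)

theorem bb_mem (L : Submodule ℂ V) (β : Fin (finrank ℂ L)) : bb L β ∈ L :=
  (stdOrthonormalBasis ℂ L β).2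

theorem orthonormal_bb (L : Submodule ℂ V) : Orthonormal ℂ (bb L) := by
  have h := (stdOrthonormalBasis ℂ L).orthonormal.comp_linearIsometry L.subtypeₗᵢ
  exact h

/-- squared norm of the projection -/
noncomputable def QQ (L : Submodule ℂ V) (v : V) : ℝ := ∑ β, ‖inner ℂ (bb L β) v‖ ^ 2

theorem QQ_nonneg (L : Submodule ℂ V) (v : V) : 0 ≤ QQ L v :=
  Finset.sum_nonneg fun _ _ => by positivity

theorem QQ_eq (L : Submodule ℂ V) (v : V) : QQ L v = ‖L.orthogonalProjectionOnto v‖ ^ 2 := by
  unfold QQ
  rw [← (stdOrthonormalBasis ℂ L).sum_sq_norm_inner_right]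
  refine Finset.sum_congr rfl fun β _ => ?_
  rw [Submodule.inner_orthogonalProjectionOnto_eq_of_mem_left]
  rfl

theorem QQ_le (L : Submodule ℂ V) (v : V) : QQ L v ≤ ‖v‖ ^ 2 :=
  (orthonormal_bb L).sum_inner_products_le v

theorem QQ_mono {N L : Submodule ℂ V} (h : N ≤ L) (v : V) : QQ N v ≤ QQ L v := by
  rw [QQ_eq L]
  have h1 : QQ N v = QQ N (L.orthogonalProjectionOnto v : V) := by
    unfold QQ
    refine Finset.sum_congr rfl fun β _ => ?_
    have := Submodule.inner_orthogonalProjectionOnto_eq_of_mem_left (K := L)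
      ⟨bb N β, h (bb_mem N β)⟩ v
    rw [← this]
    rfl
  rw [h1]
  exact QQ_le N _

/-- **a lower bound for a weighted trace of a projection** -/
theorem trace_ge {Ω ι : Type*} [Fintype Ω] [DecidableEq Ω] [LinearOrder ι]
    (e : OrthonormalBasis Ω ℂ V) (L : Submodule ℂ V) (X : Ω → ℝ) (hX : ∀ u, 0 ≤ X u)
    (rk : Ω → ι) (hrk : Injective rk) (good : Finset Ω) (O : Ω → Finset Ω)
    (hO1 : ∀ w ∈ good, w ∈ O w) (hO2 : ∀ w ∈ good, ∀ u ∈ O w, X u = X w ∧ rk w ≤ rk u)
    (hO3 : ∀ w ∈ good, ∑ u ∈ O w, e u ∈ L) :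
    ∑ w ∈ good, X w ≤ ∑ u, X u * QQ L (e u) := by
  classical
  set s : Ω → V := fun w => ∑ u ∈ O w, e u with hs
  have hse : ∀ w u, inner ℂ (e u) (s w) = if u ∈ O w then 1 else 0 := by
    intro w u
    rw [hs]
    dsimp only
    rw [inner_sum]
    simp only [OrthonormalBasis.inner_eq_ite]
    simp
  -- the subspaces
  set N : ℝ → Submodule ℂ V := fun t =>
    Submodule.span ℂ (Set.range fun w : {w // w ∈ good ∧ X w = t} => s w.1) with hN
  have hNL : ∀ t, N t ≤ L := by
    intro t
    rw [hN]
    dsimp only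
    rw [Submodule.span_le]
    rintro _ ⟨w, rfl⟩
    exact hO3 _ w.2.1
  have hNorth : ∀ t, ∀ b ∈ N t, ∀ u, X u ≠ t → inner ℂ (e u) b = 0 := by
    intro t b hb u hu
    refine Submodule.span_induction (p := fun b _ => inner ℂ (e u) b = 0) ?_ ?_ ?_ ?_ hb
    · rintro _ ⟨w, rfl⟩
      rw [hse, if_neg]
      intro hmem
      apply hu
      rw [(hO2 _ w.2.1 u hmem).1, w.2.2]
    · simp
    · intro x y _ _ hx hy
      rw [inner_add_right, hx, hy, add_zero]
    · intro a x _ hx
      rw [inner_smul_right, hx, mul_zero]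
  have hfin : ∀ t, finrank ℂ (N t) = (good.filter fun w => X w = t).card := by
    intro t
    have hli : LinearIndependent ℂ fun w : {w // w ∈ good ∧ X w = t} => s w.1 := by
      rw [Fintype.linearIndependent_iff]
      intro g hg
      have hfinite : WellFounded fun a b : {w // w ∈ good ∧ X w = t} => rk a.1 < rk b.1 :=
        Finite.wellFounded_of_trans_of_irrefl _
      intro w
      induction w using hfinite.induction with
      | _ w ih =>
        have h1 := congrArg (fun v => inner ℂ (e w.1) v) hg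
        simp only [inner_sum, inner_smul_right, inner_zero_right] at h1
        rw [Finset.sum_eq_single w] at h1
        · rw [hse, if_pos (hO1 _ w.2.1), mul_one] at h1
          exact h1
        · intro w' _ hne
          rw [hse]
          split_ifs with hmem
          · have h2 := (hO2 _ w'.2.1 _ hmem).2
            have h3 : rk w'.1 ≠ rk w.1 := fun h => hne (Subtype.ext (hrk h))
            rw [ih w' (lt_of_le_of_ne h2 h3), zero_mul]
          · rw [mul_zero]
        · intro h; exact absurd (Finset.mem_univ _) h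
    rw [hN]
    dsimp only
    rw [finrank_span_eq_card hli, Fintype.card_subtype]
    congr 1
    ext w
    simp
  -- the trace over a level set
  have hlevel : ∀ t, ∑ u with X u = t, QQ (N t) (e u) = (good.filter fun w => X w = t).card := by
    intro t
    have h1 : ∀ b ∈ N t, ∑ u with X u = t, ‖inner ℂ b (e u)‖ ^ 2 = ‖b‖ ^ 2 := by
      intro b hb
      rw [← e.sum_sq_norm_inner_right b]
      rw [← Finset.sum_filter_add_sum_filter_not Finset.univ (fun u => X u = t)
        (fun u => ‖inner ℂ (e u) b‖ ^ 2)]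
      have h2 : ∑ u with ¬ X u = t, ‖inner ℂ (e u) b‖ ^ 2 = 0 := by
        refine Finset.sum_eq_zero fun u hu => ?_
        rw [Finset.mem_filter] at hu
        rw [hNorth t b hb u hu.2]
        simp
      rw [h2, add_zero]
      refine Finset.sum_congr rfl fun u _ => ?_
      rw [norm_inner_symm]
    unfold QQ
    rw [Finset.sum_comm]
    have h3 : ∀ β : Fin (finrank ℂ (N t)), ∑ u with X u = t, ‖inner ℂ (bb (N t) β) (e u)‖ ^ 2 = 1 := by
      intro β
      rw [h1 _ (bb_mem _ β), (orthonormal_bb (N t)).1 β, one_pow]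
    rw [Finset.sum_congr rfl fun β _ => h3 β]
    rw [Finset.sum_const, Finset.card_univ, Fintype.card_fin, hfin t]
    simp
  -- sum over the values
  set T : Finset ℝ := Finset.univ.image X with hT
  have h1 : ∑ u, X u * QQ L (e u) = ∑ t ∈ T, ∑ u with X u = t, X u * QQ L (e u) := by
    rw [Finset.sum_fiberwise_of_maps_to]
    intro u _
    exact Finset.mem_image_of_mem _ (Finset.mem_univ _)
  have h2 : ∑ w ∈ good, X w = ∑ t ∈ T, t * (good.filter fun w => X w = t).card := by
    rw [← Finset.sum_fiberwise_of_maps_to (s := good) (t := T) (g := X)]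
    · refine Finset.sum_congr rfl fun t _ => ?_
      rw [Finset.sum_congr rfl (g := fun _ => t) fun w hw => (Finset.mem_filter.1 hw).2,
        Finset.sum_const, nsmul_eq_mul, mul_comm]
    · intro u _
      exact Finset.mem_image_of_mem _ (Finset.mem_univ _)
  rw [h1, h2]
  refine Finset.sum_le_sum fun t ht => ?_
  obtain ⟨u0, -, hu0⟩ := Finset.mem_image.1 ht
  have ht0 : 0 ≤ t := hu0 ▸ hX u0
  rw [← hlevel t, Finset.mul_sum]
  refine Finset.sum_le_sum fun u hu => ?_
  rw [(Finset.mem_filter.1 hu).2]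
  exact mul_le_mul_of_nonneg_left (QQ_mono (hNL t) _) ht0

end Pool.Agent.Helper34K9.Cor
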