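import Pool.Agent.Helper34K9.Cor.Order
import Pool.Agent.Helper34K9.Cor.Trace
import Pool.Agent.Helper34K9.Cor.Haar

set_option autoImplicit false
set_option linter.unusedSectionVars false

open Set Function Module Matrix

namespace Pool.Agent.Helper34K9.Cor

variable {P : Type} [Fintype P] [LinearOrder P] {k : ℕ}

/-- the space of tensors -/
abbrev VV (P : Type) [Fintype P] (k : ℕ) : Type := EuclideanSpace ℂ (P → Fin k)

/-- decomposable tensors -/
noncomputable def tens (y : P → Fin k → ℂ) : VV P k := WithLp.toLp 2 fun w => ∏ p, y p (w p)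

theorem tens_apply (y : P → Fin k → ℂ) (w : P → Fin k) : (tens y) w = ∏ p, y p (w p) := rfl

theorem inner_tens (y y' : P → Fin k → ℂ) :
    inner ℂ (tens y) (tens y') = ∏ p, ∑ l, star (y p l) * y' p l := by
  rw [PiLp.inner_apply]
  have h1 := Finset.prod_univ_sum (fun _ : P => (Finset.univ : Finset (Fin k)))
    (fun p l => star (y p l) * y' p l)
  rw [h1, Fintype.piFinset_univ]
  refine Finset.sum_congr rfl fun w _ => ?_
  rw [tens_apply, tens_apply, Finset.prod_mul_distrib]
  simp [mul_comm]

/-- the tensors that are symmetric powers in `a` positions -/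
noncomputable def LL (P : Type) [Fintype P] [LinearOrder P] (k a : ℕ) : Submodule ℂ (VV P k) :=
  Submodule.span ℂ {v | ∃ (A : Finset P) (x : Fin k → ℂ) (y : P → Fin k → ℂ), A.card = a ∧
    (∀ p ∈ A, y p = x) ∧ v = tens y}

/-- the rotated standard basis -/
noncomputable def eW (W : UG k) (w : P → Fin k) : VV P k := tens fun p l => W.1 l (w p)

theorem orthonormal_eW (W : UG k) : Orthonormal ℂ (eW (P := P) W) := by
  classical
  rw [orthonormal_iff_ite]
  intro w u
  unfold eW
  rw [inner_tens]
  have h1 : ∀ a b : Fin k, ∑ l, star (W.1 l a) * W.1 l b = if a = b then 1 else 0 := by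
    intro a b
    have h2 : (W.1)ᴴ * W.1 = 1 := Unitary.star_mul_self_of_mem W.2
    have h3 := congrFun (congrFun h2 a) b
    rw [Matrix.mul_apply, Matrix.one_apply] at h3
    rw [← h3]
    rfl
  simp only [h1]
  split_ifs with h
  · subst h; simp
  · obtain ⟨p, hp⟩ : ∃ p, w p ≠ u p := by
      by_contra hcon
      push Not at hcon
      exact h (funext hcon)
    exact Finset.prod_eq_zero (Finset.mem_univ p) (by rw [if_neg hp])

/-- the rotated basis as an orthonormal basis -/
noncomputable def bW [NeZero k] (W : UG k) : OrthonormalBasis (P → Fin k) ℂ (VV P k) :=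
  (basisOfOrthonormalOfCardEqFinrank (orthonormal_eW (P := P) W)
    (by rw [finrank_euclideanSpace])).toOrthonormalBasis (by
      rw [coe_basisOfOrthonormalOfCardEqFinrank]; exact orthonormal_eW W)

theorem bW_apply [NeZero k] (W : UG k) (w : P → Fin k) : bW W w = eW W w := by
  unfold bW
  simp

/-- sums over the rearrangements of a word belong to `LL` -/
theorem orb_mem (W : UG k) {a : ℕ} {A : Finset P} (hA : A.card = a) (w : P → Fin k) :
    ∑ u ∈ Orb A w, eW W u ∈ LL P k a := by
  classical
  rw [← Submodule.orthogonal_orthogonal (LL P k a), Submodule.mem_orthogonal]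
  intro h hh
  rw [Submodule.mem_orthogonal] at hh
  set c : (P → Fin k) → ℂ := fun u => inner ℂ h (eW W u) with hc
  set S : P → Finset (Fin k) := fun p => if p ∈ A then Finset.univ else {w p} with hS
  -- the polynomial
  set Q : MvPolynomial (Fin k) ℂ := ∑ u ∈ Fintype.piFinset S,
    MvPolynomial.C (c u) * ∏ p ∈ A, MvPolynomial.X (u p) with hQ
  have hQ0 : Q = 0 := by
    apply MvPolynomial.funext
    intro t
    rw [map_zero, hQ, map_sum]
    simp only [map_mul, MvPolynomial.eval_C, map_prod, MvPolynomial.eval_X]
    set y : P → Fin k → ℂ := fun p l => ∑ m ∈ S p, W.1 l m * (if p ∈ A then t m else 1) with hy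
    have h1 : tens y ∈ LL P k a := by
      apply Submodule.subset_span
      refine ⟨A, fun l => ∑ m, W.1 l m * t m, y, hA, ?_, rfl⟩
      intro p hp
      funext l
      rw [hy]
      simp only [hS, if_pos hp]
    have h2 : tens y = ∑ u ∈ Fintype.piFinset S, (∏ p ∈ A, t (u p)) • eW W u := by
      ext v
      rw [tens_apply, WithLp.ofLp_sum, Finset.sum_apply]
      rw [hy]
      dsimp only
      rw [Finset.prod_univ_sum]
      refine Finset.sum_congr rfl fun u _ => ?_
      rw [Finset.prod_mul_distrib, Finset.prod_ite, Finset.prod_const_one, mul_one,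
        Finset.filter_mem_eq_inter, Finset.univ_inter, mul_comm]
      rfl
    have h3 := hh _ h1
    have h4 : inner ℂ h (tens y) = 0 := by
      rw [← inner_conj_symm, h3, map_zero]
    rw [h2, inner_sum] at h4
    simp only [inner_smul_right] at h4
    rw [← h4]
    refine Finset.sum_congr rfl fun u _ => ?_
    rw [mul_comm]
  have hcoef : MvPolynomial.coeff (cnt A w) Q = inner ℂ h (∑ u ∈ Orb A w, eW W u) := by
    rw [hQ, MvPolynomial.coeff_sum, inner_sum, Orb, Finset.sum_filter]
    refine Finset.sum_congr rfl fun u _ => ?_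
    have h1 : (∏ p ∈ A, (MvPolynomial.X (u p) : MvPolynomial (Fin k) ℂ)) =
        MvPolynomial.monomial (cnt A u) 1 := by
      unfold cnt
      rw [MvPolynomial.monomial_sum_one]
      rfl
    rw [h1, MvPolynomial.C_mul_monomial, MvPolynomial.coeff_monomial, mul_one]
  rw [← hcoef, hQ0, MvPolynomial.coeff_zero]

end Pool.Agent.Helper34K9.Cor
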